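import Pool.Agent.W_MP_0d5018_nt.Level

/-!
Assembly of the lower bound.
-/

namespace Pool.Agent.W_MP_0d5018_nt

open Classical

theorem half_le_pow (θ : ℝ) (h1 : θ ≤ 1) (n : ℕ) (h : n * θ ≤ 1 / 2) :
    (1 : ℝ) / 2 ≤ (1 - θ) ^ n := by
  have h2 := one_add_mul_le_pow (a := -θ) (by linarith) n
  rw [← sub_eq_add_neg] at h2
  linarith

theorem exists_alpha_levels (lam κ : ℕ) (h1 : 8 ^ κ ≤ lam) (h2 : lam < 8 ^ (κ + 1)) (h3 : 4 ≤ κ)
    (T : ℕ → Finset ℝ) (hT : ∀ n, LevelSet lam n (T n))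
    (hT0 : ∀ n < (13 * (2 ^ κ) ^ 2 + 27) + (2 * 2 ^ κ + 3) * lam, T n = ∅) :
    ∃ α : ℝ, ∀ n, ∀ t ∈ T n, ∀ z : ℤ, (2 : ℝ) / 2 ^ (lam + 2 * κ + 20) ≤ |t * α - z| := by
  set k := 2 ^ κ with hk
  set r := 13 * k ^ 2 + 27 with hr
  set q := (2 * k + 3) * lam with hq
  have hk16 : 16 ≤ k := by
    rw [hk]
    calc 16 = 2 ^ 4 := by norm_num
      _ ≤ 2 ^ κ := Nat.pow_le_pow_right (by norm_num) h3
  have hκk : κ < k := Nat.lt_two_pow_self
  have h8 : 8 ^ κ = k ^ 3 := by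
    rw [hk, ← pow_mul, mul_comm, pow_mul]
    norm_num
  have h8' : 8 ^ (κ + 1) = 8 * k ^ 3 := by rw [pow_succ, h8]; ring
  have hk3 : k ^ 3 ≤ lam := by omega
  have hk3' : lam ≤ 8 * k ^ 3 := by omega
  have hk2 : 256 ≤ k ^ 2 := by nlinarith
  have hkk : 16 * k ^ 2 ≤ k ^ 3 := by
    rw [pow_succ k 2, mul_comm]
    exact Nat.mul_le_mul_left _ hk16
  obtain ⟨h, hh⟩ : ∃ h, h + r = lam + 2 * κ + 15 :=
    ⟨lam + 2 * κ + 15 - r, by omega⟩
  have hhl : h ≤ lam := by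
    have : 2 * κ ≤ 13 * k ^ 2 := by nlinarith
    omega
  have hlam1 : 1 ≤ lam := by omega
  have h4κ : 4 * κ ≤ k ^ 2 := by nlinarith
  have hw : lam + 2 * κ + 20 = h + r + 5 := by omega
  rw [hw]
  set θ : ℝ := 1 / 2 ^ (8 + 2 * κ) with hθ
  have hθ' : θ = 1 / (256 * (k : ℝ) ^ 2) := by
    rw [hθ, hk, pow_add]
    push_cast
    rw [← pow_mul]
    norm_num
    rw [mul_comm 2 κ]
  have hkr : (16 : ℝ) ≤ k := by exact_mod_cast hk16
  have hθ0 : 0 < θ := by positivity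
  have hθ1 : θ ≤ 1 / 2 := by
    rw [hθ']
    apply one_div_le_one_div_of_le (by norm_num)
    nlinarith
  -- powers of `1 - θ`
  have p1 : (1 : ℝ) / 2 ≤ (1 - θ) ^ (r - 1) := by
    apply half_le_pow θ (by linarith)
    have e1 : (((r - 1 : ℕ)) : ℝ) ≤ 40 * (k : ℝ) ^ 2 := by
      have : r - 1 ≤ 40 * k ^ 2 := by omega
      exact_mod_cast this
    rw [hθ', mul_one_div, div_le_div_iff₀ (by positivity) (by norm_num)]
    nlinarith [sq_nonneg (k : ℝ)]
  have p2 : (1 : ℝ) / 2 ≤ (1 - θ) ^ (128 * k ^ 2) := by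
    apply half_le_pow θ (by linarith)
    rw [hθ']
    push_cast
    have : (k : ℝ) ≠ 0 := by positivity
    field_simp
    norm_num
  have p3 : (1 : ℝ) / 2 ^ (k ^ 2) ≤ (1 - θ) ^ (r + q - 1) := by
    calc (1 : ℝ) / 2 ^ (k ^ 2) = (1 / 2) ^ (k ^ 2) := by rw [div_pow, one_pow]
      _ ≤ ((1 - θ) ^ (128 * k ^ 2)) ^ (k ^ 2) := pow_le_pow_left₀ (by norm_num) p2 _
      _ = (1 - θ) ^ (128 * k ^ 2 * k ^ 2) := by rw [← pow_mul]
      _ ≤ (1 - θ) ^ (r + q - 1) := by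
          refine pow_le_pow_of_le_one (by linarith) (by linarith) ?_
          have e1 : q ≤ (2 * k + 3) * (8 * k ^ 3) := Nat.mul_le_mul_left _ hk3'
          have e2 : (2 * k + 3) * (8 * k ^ 3) = 16 * k ^ 4 + 24 * k ^ 3 := by ring
          have e3 : k ^ 3 ≤ k ^ 4 := Nat.pow_le_pow_right (by omega) (by norm_num)
          have e4 : k ^ 2 ≤ k ^ 4 := Nat.pow_le_pow_right (by omega) (by norm_num)
          have e5 : 128 * k ^ 2 * k ^ 2 = 128 * k ^ 4 := by ring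
          rw [e5]
          omega
  -- parameters
  set Abn : ℕ → ℕ → Prop := fun s J =>
    (2 : ℝ) ^ lam / 2 ^ h < ‖Rs (T (s + q + r)) (2 ^ h) ((J : ℝ) / 2 ^ (s + q + (h + r + 5)))‖
    with hAbn
  have hgrow := tree_growth T (h + r + 5) r q (by omega) θ (32 * (2 ^ lam / 2 ^ h))
    (2 ^ (h + 3 + 11 * k ^ 2) / 2 ^ lam) hθ0.le (by linarith) (by positivity) Abn
    hT0 ?_ ?_ ?_ ?_
  · have hne := alive_nonempty T (h + r + 5) θ (by linarith) hgrow
    exact exists_point T (h + r + 5) (fun n t ht => ⟨le_trans (by positivity) ((hT n).lo t ht),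
      (hT n).hi t ht⟩) (hT0 0 (by omega)) hne
  · intro s J hJ
    rw [hAbn] at hJ
    simp only [not_lt] at hJ
    have b1 := bad_block T h r (s + q) (by omega) lam (hT _) J
    have b2 := Nc_le (T (s + q + r)) (2 ^ h) ((J : ℝ) / 2 ^ (s + q + (h + r + 5)))
      Nat.one_le_two_pow
    have b3 : (((T (s + q + r)).card : ℝ)) / ((2 ^ h : ℕ) : ℝ) ≤ 2 ^ lam / 2 ^ h := by
      have : ((T (s + q + r)).card : ℝ) ≤ 2 ^ lam := by exact_mod_cast (hT _).card
      push_cast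
      exact div_le_div_of_nonneg_right this (by positivity)
    have b4 : (((Finset.Ico (J * 2 ^ r) ((J + 1) * 2 ^ r)).filter
        (bad T (h + r + 5) (s + q + r))).card : ℝ) ≤
        8 * (Nc (T (s + q + r)) (2 ^ h) ((J : ℝ) / 2 ^ (s + q + (h + r + 5))) : ℝ) := by
      exact_mod_cast b1
    linarith
  · intro s I
    have b1 := few_abnormal lam κ h r q s (T (s + q + r)) (hT _) h2 hlam1 hhl (by
      rw [← hk, hq]
      nlinarith) I
    rw [← hk] at b1
    rw [div_mul_eq_mul_div, le_div_iff₀ (by positivity), ← pow_add]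
    refine le_trans b1 (le_of_eq ?_)
    congr 1
    ring
  · have e1 : (32 : ℝ) * (2 ^ lam / 2 ^ h) = θ * (2 ^ (r - 1) * (1 / 2)) := by
      have e2 : (2 : ℝ) ^ (r - 1) * 2 = 2 ^ r := by
        rw [← pow_succ, show r - 1 + 1 = r by omega]
      have e3 : (2 : ℝ) ^ h * 2 ^ r = 2 ^ lam * 2 ^ (2 * κ) * 2 ^ 15 := by
        rw [← pow_add, hh, pow_add, pow_add]
      rw [hθ, pow_add, ← mul_div_assoc, div_eq_iff (by positivity)]
      have e4 : (0 : ℝ) < 2 ^ (2 * κ) := by positivity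
      have e5 : (2 : ℝ) ^ (r - 1) * (1 / 2) = 2 ^ r / 4 := by rw [← e2]; ring
      rw [e5]
      field_simp
      rw [mul_comm ((2 : ℝ) ^ r), e3]
      norm_num
      ring
    rw [e1, mul_pow]
    exact mul_le_mul_of_nonneg_left (mul_le_mul_of_nonneg_left p1 (by positivity)) hθ0.le
  · have e0 : (2 : ℝ) ^ (r + q - 1) * (1 / 2 ^ (k ^ 2)) ≤ (2 * (1 - θ)) ^ (r + q - 1) := by
      rw [mul_pow]
      exact mul_le_mul_of_nonneg_left p3 (by positivity)
    refine le_trans ?_ (mul_le_mul_of_nonneg_left e0 hθ0.le)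
    have e1 : (2 : ℝ) ^ r * (2 ^ (h + 3 + 11 * k ^ 2) / 2 ^ lam * 2 ^ q) =
        2 ^ (q + 18 + 2 * κ + 11 * k ^ 2) := by
      rw [div_mul_eq_mul_div, ← mul_div_assoc, div_eq_iff (by positivity), ← pow_add, ← pow_add,
        ← pow_add]
      congr 1
      omega
    rw [e1, hθ]
    have e2 : (1 : ℝ) / 2 ^ (8 + 2 * κ) * (2 ^ (r + q - 1) * (1 / 2 ^ (k ^ 2))) =
        2 ^ (r + q - 1) / 2 ^ (8 + 2 * κ + k ^ 2) := by
      rw [pow_add 2 (8 + 2 * κ)]; ring
    rw [e2, le_div_iff₀ (by positivity), ← pow_add]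
    refine pow_le_pow_right₀ (by norm_num) ?_
    omega

theorem exists_alpha (lam κ : ℕ) (h1 : 8 ^ κ ≤ lam) (h2 : lam < 8 ^ (κ + 1)) (h3 : 4 ≤ κ)
    (t : ℕ → ℝ) (ht0 : ∀ j, 0 < t j) (ht : ∀ j, (1 + 1 / (2 : ℝ) ^ lam) * t j ≤ t (j + 1)) :
    ∃ α : ℝ, ∀ j, ∀ z : ℤ, (2 : ℝ) / 2 ^ (lam + 2 * κ + 20) ≤ |α * t j - z| := by
  set g := (13 * (2 ^ κ) ^ 2 + 27) + (2 * 2 ^ κ + 3) * lam with hg
  set s : ℕ → ℝ := fun j => 2 ^ g / t 0 * t j with hs
  have hc : 0 < (2 : ℝ) ^ g / t 0 := div_pos (by positivity) (ht0 0)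
  have hs0 : s 0 = 2 ^ g := by
    rw [hs]; simp only; exact div_mul_cancel₀ _ (ht0 0).ne'
  have hspos : ∀ j, 0 < s j := fun j => mul_pos hc (ht0 j)
  have hstep : ∀ j, (1 + 1 / (2 : ℝ) ^ lam) * s j ≤ s (j + 1) := by
    intro j
    calc (1 + 1 / (2 : ℝ) ^ lam) * s j = 2 ^ g / t 0 * ((1 + 1 / (2 : ℝ) ^ lam) * t j) := by
          rw [hs]; ring
      _ ≤ _ := mul_le_mul_of_nonneg_left (ht j) hc.le
  have hl0 : (0 : ℝ) < 1 / 2 ^ lam := by positivity
  have hmono1 : StrictMono s := by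
    apply strictMono_nat_of_lt_succ
    intro j
    have := hstep j
    nlinarith [hspos j]
  have hgrow : ∀ i d : ℕ, (1 + (d : ℝ) / 2 ^ lam) * s i ≤ s (i + d) := by
    intro i d
    have e1 : ∀ d : ℕ, (1 + 1 / (2 : ℝ) ^ lam) ^ d * s i ≤ s (i + d) := by
      intro d
      induction d with
      | zero => simp
      | succ d ih =>
        rw [pow_succ', mul_assoc]
        exact (mul_le_mul_of_nonneg_left ih (by linarith)).trans (hstep (i + d))
    refine le_trans (mul_le_mul_of_nonneg_right ?_ (hspos i).le) (e1 d)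
    have := one_add_mul_le_pow (a := 1 / (2 : ℝ) ^ lam) (by linarith) d
    rw [mul_one_div] at this
    exact this
  set T : ℕ → Finset ℝ := fun n => ((Finset.range (2 ^ (n + 1) * 2 ^ lam)).filter
    (fun j => (2 : ℝ) ^ n ≤ s j ∧ s j < 2 ^ (n + 1))).image s with hT
  have hmem : ∀ n j, (2 : ℝ) ^ n ≤ s j → s j < 2 ^ (n + 1) → s j ∈ T n := by
    intro n j h4 h5
    rw [hT, Finset.mem_image]
    refine ⟨j, ?_, rfl⟩
    rw [Finset.mem_filter, Finset.mem_range]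
    refine ⟨?_, h4, h5⟩
    have h6 := hgrow 0 j
    rw [zero_add, hs0] at h6
    have h7 : (1 : ℝ) ≤ 2 ^ g := one_le_pow₀ (by norm_num)
    have h8 : (j : ℝ) / 2 ^ lam < 2 ^ (n + 1) := by
      have : 0 ≤ (j : ℝ) / 2 ^ lam := by positivity
      nlinarith
    rw [div_lt_iff₀ (by positivity)] at h8
    exact_mod_cast h8
  have hlev : ∀ n, LevelSet lam n (T n) := by
    intro n
    refine ⟨?_, ?_, ?_, ?_⟩
    · intro x hx
      rw [hT, Finset.mem_image] at hx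
      obtain ⟨j, hj, rfl⟩ := hx
      exact (Finset.mem_filter.1 hj).2.1
    · intro x hx
      rw [hT, Finset.mem_image] at hx
      obtain ⟨j, hj, rfl⟩ := hx
      exact (Finset.mem_filter.1 hj).2.2
    · refine Finset.card_image_le.trans ?_
      set B := (Finset.range (2 ^ (n + 1) * 2 ^ lam)).filter
        (fun j => (2 : ℝ) ^ n ≤ s j ∧ s j < 2 ^ (n + 1)) with hB
      rcases Finset.eq_empty_or_nonempty B with he | hne
      · rw [he]; simp
      · have hm := Finset.min'_mem B hne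
        set j0 := B.min' hne with hj0
        have hsub : B ⊆ Finset.Ico j0 (j0 + 2 ^ lam) := by
          intro j hj
          have hle : j0 ≤ j := Finset.min'_le _ _ hj
          rw [Finset.mem_Ico]
          refine ⟨hle, ?_⟩
          by_contra hcon
          push Not at hcon
          obtain ⟨d, rfl⟩ : ∃ d, j = j0 + d := ⟨j - j0, by omega⟩
          have hd : 2 ^ lam ≤ d := by omega
          have hdr : (2 : ℝ) ^ lam ≤ d := by exact_mod_cast hd
          have h6 := hgrow j0 d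
          have h7 := (Finset.mem_filter.1 hm).2.1
          have h8 := (Finset.mem_filter.1 hj).2.2
          have h9 : (1 : ℝ) ≤ d / 2 ^ lam := by
            rw [le_div_iff₀ (by positivity), one_mul]; exact hdr
          have h10 : (0 : ℝ) < 2 ^ n := by positivity
          rw [pow_succ] at h8
          nlinarith
        calc B.card ≤ (Finset.Ico j0 (j0 + 2 ^ lam)).card := Finset.card_le_card hsub
          _ = 2 ^ lam := by rw [Nat.card_Ico, Nat.add_sub_cancel_left]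
    · intro x hx y hy hxy
      rw [hT, Finset.mem_image] at hx hy
      obtain ⟨i, -, rfl⟩ := hx
      obtain ⟨j, -, rfl⟩ := hy
      have hij : i < j := hmono1.lt_iff_lt.1 hxy
      exact (hstep i).trans (hmono1.monotone hij)
  have hempty : ∀ n < g, T n = ∅ := by
    intro n hn
    rw [hT, Finset.image_eq_empty, Finset.filter_eq_empty_iff]
    rintro j - ⟨-, h5⟩
    have h6 : s 0 ≤ s j := hmono1.monotone (Nat.zero_le j)
    rw [hs0] at h6
    have h7 : (2 : ℝ) ^ (n + 1) ≤ 2 ^ g := pow_le_pow_right₀ (by norm_num) hn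
    linarith
  obtain ⟨α, hα⟩ := exists_alpha_levels lam κ h1 h2 h3 T hlev hempty
  refine ⟨α * (2 ^ g / t 0), fun j z => ?_⟩
  have h6 : s 0 ≤ s j := hmono1.monotone (Nat.zero_le j)
  rw [hs0] at h6
  have h7 : (1 : ℝ) ≤ 2 ^ g := one_le_pow₀ (by norm_num)
  obtain ⟨n, hn1, hn2⟩ := exists_nat_pow_near (h7.trans h6) (show (1 : ℝ) < 2 by norm_num)
  have h8 := hα n (s j) (hmem n j hn1 hn2) z
  rw [show α * (2 ^ g / t 0) * t j = s j * α by rw [hs]; ring]
  exact h8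

end Pool.Agent.W_MP_0d5018_nt
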