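import Pool.Agent.W_MP_0d5018_nt.Mult

/-!
Multiplicative energy of a separated set of reals against an interval of integers.
-/

namespace Pool.Agent.W_MP_0d5018_nt

/-- pairs of integers in a box with an approximate coincidence -/
noncomputable def coinSet (σ : ℝ) (H : ℕ) (s t : ℝ) : Finset (ℕ × ℕ) :=
  ((Finset.Icc 1 H) ×ˢ (Finset.Icc 1 H)).filter
    (fun x => |Real.log x.1 + s - Real.log x.2 - t| ≤ σ)

/-- pairs of tuples with an approximate coincidence of products -/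
noncomputable def coinS (σ : ℝ) (H k : ℕ) (s t : ℝ) : Finset (List ℕ × List ℕ) :=
  ((tup H k) ×ˢ (tup H k)).filter
    (fun x => |Real.log (x.1.prod : ℝ) + s - Real.log (x.2.prod : ℝ) - t| ≤ k * σ)

theorem coinSet_card_symm (σ : ℝ) (H : ℕ) (s t : ℝ) :
    (coinSet σ H s t).card = (coinSet σ H t s).card := by
  refine Finset.card_bij (fun x _ => (x.2, x.1)) ?_ ?_ ?_
  · rintro ⟨a, b⟩ hx
    simp only [coinSet, Finset.mem_filter, Finset.mem_product] at hx ⊢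
    refine ⟨⟨hx.1.2, hx.1.1⟩, ?_⟩
    rw [abs_sub_comm] at hx
    have h2 := hx.2
    rw [show t - (Real.log (a : ℝ) + s - Real.log (b : ℝ)) =
      Real.log (b : ℝ) + t - Real.log (a : ℝ) - s by ring] at h2
    exact h2
  · rintro ⟨a, b⟩ _ ⟨c, d⟩ _ h
    simp only [Prod.mk.injEq] at h ⊢
    exact ⟨h.2, h.1⟩
  · rintro ⟨a, b⟩ hx
    refine ⟨(b, a), ?_, rfl⟩
    simp only [coinSet, Finset.mem_filter, Finset.mem_product] at hx ⊢
    refine ⟨⟨hx.1.2, hx.1.1⟩, ?_⟩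
    rw [abs_sub_comm] at hx
    have h2 := hx.2
    rw [show s - (Real.log (a : ℝ) + t - Real.log (b : ℝ)) =
      Real.log (b : ℝ) + s - Real.log (a : ℝ) - t by ring] at h2
    exact h2

theorem matrix_cs {ι : Type*} [Fintype ι] [DecidableEq ι] (A : Matrix ι ι ℝ) (hA : A.IsSymm) :
    (∑ i, ∑ j, A i j) ^ 2 ≤ (Fintype.card ι : ℝ) * ∑ i, ∑ j, (A * A) i j := by
  have h1 : ∑ i, ∑ j, (A * A) i j = ∑ k, (∑ j, A k j) ^ 2 := by
    have h2 : ∀ i j, (A * A) i j = ∑ k, A k i * A k j := by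
      intro i j
      rw [Matrix.mul_apply]
      refine Finset.sum_congr rfl fun k _ => ?_
      rw [← hA.apply]
    simp only [h2]
    have h3 : ∀ i, ∑ j, ∑ k, A k i * A k j = ∑ k, A k i * ∑ j, A k j := by
      intro i
      rw [Finset.sum_comm]
      refine Finset.sum_congr rfl fun k _ => ?_
      rw [Finset.mul_sum]
    simp only [h3]
    rw [Finset.sum_comm]
    refine Finset.sum_congr rfl fun k _ => ?_
    rw [← Finset.sum_mul, sq]
  rw [h1]
  have h4 := sq_sum_le_card_mul_sum_sq (s := (Finset.univ : Finset ι)) (f := fun i => ∑ j, A i j)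
  rw [Finset.card_univ] at h4
  exact h4

theorem matrix_pow_cs {ι : Type*} [Fintype ι] [DecidableEq ι] (A : Matrix ι ι ℝ) (hA : A.IsSymm)
    (hpos : 0 ≤ ∑ i, ∑ j, A i j) (hc : 0 < Fintype.card ι) (κ : ℕ) :
    (∑ i, ∑ j, A i j) ^ (2 ^ κ) * (Fintype.card ι : ℝ) ≤
      (Fintype.card ι : ℝ) ^ (2 ^ κ) * ∑ i, ∑ j, (A ^ (2 ^ κ)) i j := by
  have hcr : (0 : ℝ) < (Fintype.card ι : ℝ) := by exact_mod_cast hc
  induction κ with
  | zero => simp [mul_comm]
  | succ κ ih =>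
    have h1 := matrix_cs (A ^ (2 ^ κ)) (hA.pow _)
    rw [← pow_add, ← two_mul, ← pow_succ'] at h1
    set N := (Fintype.card ι : ℝ)
    set u := ∑ i, ∑ j, A i j
    set v := ∑ i, ∑ j, (A ^ (2 ^ κ)) i j
    set v' := ∑ i, ∑ j, (A ^ (2 ^ (κ + 1))) i j
    have h2 : (u ^ (2 ^ κ) * N) ^ 2 ≤ (N ^ (2 ^ κ) * v) ^ 2 :=
      pow_le_pow_left₀ (by positivity) ih 2
    have h3 : (u ^ (2 ^ κ) * N) ^ 2 = (u ^ (2 ^ (κ + 1)) * N) * N := by
      rw [mul_pow, ← pow_mul, ← pow_succ]; ring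
    have h4 : (N ^ (2 ^ κ) * v) ^ 2 = N ^ (2 ^ (κ + 1)) * v ^ 2 := by
      rw [mul_pow, ← pow_mul, ← pow_succ]
    rw [h3, h4] at h2
    have h5 : (u ^ (2 ^ (κ + 1)) * N) * N ≤ (N ^ (2 ^ (κ + 1)) * v') * N := by
      refine h2.trans ?_
      calc N ^ (2 ^ (κ + 1)) * v ^ 2 ≤ N ^ (2 ^ (κ + 1)) * (N * v') :=
            mul_le_mul_of_nonneg_left h1 (by positivity)
        _ = (N ^ (2 ^ (κ + 1)) * v') * N := by ring
    exact le_of_mul_le_mul_right h5 hcr

/-- the matrix of coincidences -/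
noncomputable def cmat {ι : Type*} (ℓ : ι → ℝ) (σ : ℝ) (H : ℕ) : Matrix ι ι ℝ :=
  Matrix.of fun i j => ((coinSet σ H (ℓ i) (ℓ j)).card : ℝ)

theorem cmat_symm {ι : Type*} (ℓ : ι → ℝ) (σ : ℝ) (H : ℕ) : (cmat ℓ σ H).IsSymm := by
  ext i j
  rw [Matrix.transpose_apply, cmat, Matrix.of_apply, Matrix.of_apply, coinSet_card_symm]

theorem cmat_pow_le {ι : Type*} [Fintype ι] [DecidableEq ι] (ℓ : ι → ℝ) (σ : ℝ) (H : ℕ)
    (hsep : ∀ i j, i ≠ j → 2 * σ < |ℓ i - ℓ j|) (k : ℕ) (i j : ι) :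
    (cmat ℓ σ H ^ k) i j ≤ ((coinS σ H k (ℓ i) (ℓ j)).card : ℝ) := by
  induction k generalizing j with
  | zero =>
    rw [pow_zero]
    by_cases h : i = j
    · subst h
      rw [Matrix.one_apply_eq]
      have h1 : (([] : List ℕ), ([] : List ℕ)) ∈ coinS σ H 0 (ℓ i) (ℓ i) := by
        simp [coinS, tup]
      have h2 : 0 < (coinS σ H 0 (ℓ i) (ℓ i)).card := Finset.card_pos.2 ⟨_, h1⟩
      exact_mod_cast h2
    · rw [Matrix.one_apply_ne h]
      positivity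
  | succ k ih =>
    rw [pow_succ, Matrix.mul_apply]
    have h1 : ∑ u, (cmat ℓ σ H ^ k) i u * (cmat ℓ σ H) u j ≤
        ∑ u, ((coinS σ H k (ℓ i) (ℓ u)).card : ℝ) * ((coinSet σ H (ℓ u) (ℓ j)).card : ℝ) := by
      refine Finset.sum_le_sum fun u _ => ?_
      rw [show (cmat ℓ σ H) u j = ((coinSet σ H (ℓ u) (ℓ j)).card : ℝ) from rfl]
      exact mul_le_mul_of_nonneg_right (ih u) (by positivity)
    refine h1.trans ?_
    have h2 : ∑ u, (coinS σ H k (ℓ i) (ℓ u)).card * (coinSet σ H (ℓ u) (ℓ j)).card =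
        ((Finset.univ : Finset ι).sigma (fun u =>
          (coinS σ H k (ℓ i) (ℓ u)) ×ˢ (coinSet σ H (ℓ u) (ℓ j)))).card := by
      rw [Finset.card_sigma]
      refine Finset.sum_congr rfl fun u _ => ?_
      rw [Finset.card_product]
    have h3 : ((Finset.univ : Finset ι).sigma (fun u =>
          (coinS σ H k (ℓ i) (ℓ u)) ×ˢ (coinSet σ H (ℓ u) (ℓ j)))).card ≤
        (coinS σ H (k + 1) (ℓ i) (ℓ j)).card := by
      refine Finset.card_le_card_of_injOn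
        (fun y => (y.2.2.1 :: y.2.1.1, y.2.2.2 :: y.2.1.2)) ?_ ?_
      · rintro ⟨u, ⟨⟨m, m'⟩, ⟨a, b⟩⟩⟩ hy
        rw [Finset.mem_coe, Finset.mem_sigma, Finset.mem_product] at hy
        obtain ⟨-, h4, h5⟩ := hy
        rw [coinS, Finset.mem_filter, Finset.mem_product] at h4
        rw [coinSet, Finset.mem_filter, Finset.mem_product, Finset.mem_Icc, Finset.mem_Icc] at h5
        simp only at h4 h5
        obtain ⟨⟨h6, h7⟩, h8⟩ := h4
        obtain ⟨⟨h9, h10⟩, h11⟩ := h5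
        rw [Finset.mem_coe, coinS, Finset.mem_filter, Finset.mem_product]
        have hm : (0 : ℝ) < (m.prod : ℝ) := by exact_mod_cast prod_pos_of_mem_tup h6
        have hm' : (0 : ℝ) < (m'.prod : ℝ) := by exact_mod_cast prod_pos_of_mem_tup h7
        have ha : (0 : ℝ) < (a : ℝ) := by exact_mod_cast h9.1
        have hb : (0 : ℝ) < (b : ℝ) := by exact_mod_cast h10.1
        obtain ⟨t1, t2⟩ := mem_tup.1 h6
        obtain ⟨t3, t4⟩ := mem_tup.1 h7
        refine ⟨⟨mem_tup.2 ⟨by simp [t1], ?_⟩, mem_tup.2 ⟨by simp [t3], ?_⟩⟩, ?_⟩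
        · intro x hx
          rcases List.mem_cons.1 hx with rfl | hx
          · exact h9
          · exact t2 x hx
        · intro x hx
          rcases List.mem_cons.1 hx with rfl | hx
          · exact h10
          · exact t4 x hx
        · simp only [List.prod_cons, Nat.cast_mul]
          rw [Real.log_mul ha.ne' hm.ne', Real.log_mul hb.ne' hm'.ne']
          have e1 : Real.log a + Real.log (m.prod : ℝ) + ℓ i -
              (Real.log b + Real.log (m'.prod : ℝ)) - ℓ j =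
              (Real.log (m.prod : ℝ) + ℓ i - Real.log (m'.prod : ℝ) - ℓ u) +
              (Real.log a + ℓ u - Real.log b - ℓ j) := by ring
          rw [e1]
          refine (abs_add_le _ _).trans ?_
          have e2 : ((k + 1 : ℕ) : ℝ) * σ = k * σ + σ := by push_cast; ring
          rw [e2]
          exact add_le_add h8 h11
      · rintro ⟨u, ⟨⟨m, m'⟩, ⟨a, b⟩⟩⟩ hy ⟨v, ⟨⟨n, n'⟩, ⟨c, d⟩⟩⟩ hy' hyy
        rw [Finset.mem_coe, Finset.mem_sigma, Finset.mem_product] at hy hy'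
        simp only [Prod.mk.injEq, List.cons.injEq] at hyy
        obtain ⟨⟨rfl, rfl⟩, ⟨rfl, rfl⟩⟩ := hyy
        have h5 := hy.2.2
        have h5' := hy'.2.2
        rw [coinSet, Finset.mem_filter] at h5 h5'
        simp only at h5 h5'
        have huv : u = v := by
          by_contra hne
          have h6 := hsep u v hne
          have h7 := abs_le.1 h5.2
          have h8 := abs_le.1 h5'.2
          have h9 : |ℓ u - ℓ v| ≤ 2 * σ := abs_le.2 ⟨by linarith, by linarith⟩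
          linarith
        subst huv
        rfl
    calc ∑ u, ((coinS σ H k (ℓ i) (ℓ u)).card : ℝ) * ((coinSet σ H (ℓ u) (ℓ j)).card : ℝ)
        = ((∑ u, (coinS σ H k (ℓ i) (ℓ u)).card * (coinSet σ H (ℓ u) (ℓ j)).card : ℕ) : ℝ) := by
          push_cast; rfl
      _ ≤ ((coinS σ H (k + 1) (ℓ i) (ℓ j)).card : ℝ) := by
          rw [h2]; exact_mod_cast h3

theorem log_sep {A B N : ℕ} (hA : 1 ≤ A) (hB : 1 ≤ B) (hAN : A ≤ N) (hBN : B ≤ N)
    (hne : A ≠ B) : (1 : ℝ) / N ≤ |Real.log A - Real.log B| := by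
  wlog hlt : A < B generalizing A B with Hw
  · rw [abs_sub_comm]
    exact Hw hB hA hBN hAN hne.symm (lt_of_le_of_ne (not_lt.1 hlt) hne.symm)
  have hA' : (0 : ℝ) < A := by exact_mod_cast hA
  have hB' : (0 : ℝ) < B := by exact_mod_cast hB
  have hN' : (0 : ℝ) < N := lt_of_lt_of_le hB' (by exact_mod_cast hBN)
  have h1 : Real.log ((A : ℝ) / B) ≤ (A : ℝ) / B - 1 := Real.log_le_sub_one_of_pos (by positivity)
  rw [Real.log_div hA'.ne' hB'.ne'] at h1
  have h2 : (A : ℝ) / B ≤ 1 - 1 / N := by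
    rw [div_le_iff₀ hB']
    have h3 : (A : ℝ) + 1 ≤ B := by exact_mod_cast hlt
    have h4 : (B : ℝ) / N ≤ 1 := by
      rw [div_le_one hN']; exact_mod_cast hBN
    have h5 : (1 - 1 / (N : ℝ)) * B = B - B / N := by ring
    rw [h5]
    linarith
  rw [abs_sub_comm]
  exact le_trans (by linarith) (le_abs_self _)

theorem coinS_card_le (σ : ℝ) (H k : ℕ) (s t : ℝ)
    (hσ : 2 * (k * σ) * (H : ℝ) ^ (2 * k) < 1) (hH : 1 ≤ H) :
    (coinS σ H k s t).card ≤ (eqp H k k).card := by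
  rcases Finset.eq_empty_or_nonempty (coinS σ H k s t) with h | ⟨⟨n, n'⟩, h0⟩
  · rw [h]; simp
  · have h0' := h0
    rw [coinS, Finset.mem_filter, Finset.mem_product] at h0'
    obtain ⟨⟨h1, h2⟩, h3⟩ := h0'
    simp only at h1 h2 h3
    refine le_trans (Finset.card_le_card ?_) (card_ratio_le H k n.prod n'.prod
      (prod_pos_of_mem_tup h1) (prod_pos_of_mem_tup h2))
    rintro ⟨m, m'⟩ hm
    rw [coinS, Finset.mem_filter, Finset.mem_product] at hm
    obtain ⟨⟨h4, h5⟩, h6⟩ := hm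
    simp only at h4 h5 h6
    rw [Finset.mem_filter, Finset.mem_product]
    refine ⟨⟨h4, h5⟩, ?_⟩
    simp only
    by_contra hne
    have p1 := prod_pos_of_mem_tup h1
    have p2 := prod_pos_of_mem_tup h2
    have p4 := prod_pos_of_mem_tup h4
    have p5 := prod_pos_of_mem_tup h5
    have q1 := prod_le_of_mem_tup h1
    have q2 := prod_le_of_mem_tup h2
    have q4 := prod_le_of_mem_tup h4
    have q5 := prod_le_of_mem_tup h5
    have h7 := log_sep (N := H ^ (2 * k)) (Nat.mul_pos p2 p4) (Nat.mul_pos p1 p5)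
      (by rw [two_mul, pow_add]; exact Nat.mul_le_mul q2 q4)
      (by rw [two_mul, pow_add]; exact Nat.mul_le_mul q1 q5) hne
    have r1 : (0 : ℝ) < (n.prod : ℝ) := by exact_mod_cast p1
    have r2 : (0 : ℝ) < (n'.prod : ℝ) := by exact_mod_cast p2
    have r4 : (0 : ℝ) < (m.prod : ℝ) := by exact_mod_cast p4
    have r5 : (0 : ℝ) < (m'.prod : ℝ) := by exact_mod_cast p5
    rw [Nat.cast_mul, Nat.cast_mul, Real.log_mul r2.ne' r4.ne', Real.log_mul r1.ne' r5.ne'] at h7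
    have h8 := abs_le.1 h3
    have h9 := abs_le.1 h6
    have h10 : |Real.log (n'.prod : ℝ) + Real.log (m.prod : ℝ) -
        (Real.log (n.prod : ℝ) + Real.log (m'.prod : ℝ))| ≤ 2 * (k * σ) :=
      abs_le.2 ⟨by linarith, by linarith⟩
    have hHr : (0 : ℝ) < (H : ℝ) ^ (2 * k) := by
      have : (0 : ℝ) < (H : ℝ) := by exact_mod_cast hH
      positivity
    have h11 : (1 : ℝ) / ((H ^ (2 * k) : ℕ) : ℝ) ≤ 2 * (k * σ) := h7.trans h10
    rw [Nat.cast_pow, div_le_iff₀ hHr] at h11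
    linarith

theorem energy {ι : Type*} [Fintype ι] [DecidableEq ι] (ℓ : ι → ℝ) (σ : ℝ) (H κ : ℕ)
    (hsep : ∀ i j, i ≠ j → 2 * σ < |ℓ i - ℓ j|)
    (hσ : 2 * ((2 ^ κ : ℕ) * σ) * (H : ℝ) ^ (2 * 2 ^ κ) < 1) (hH : 1 ≤ H) :
    (∑ i, ∑ j, ((coinSet σ H (ℓ i) (ℓ j)).card : ℝ)) ^ (2 ^ κ) ≤
      (Fintype.card ι : ℝ) ^ (2 ^ κ + 1) * ((H : ℝ) ^ (2 ^ κ) * hs H ^ (2 ^ κ * 2 ^ κ)) := by
  rcases Nat.eq_zero_or_pos (Fintype.card ι) with h0 | hpos
  · have : IsEmpty ι := Fintype.card_eq_zero_iff.1 h0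
    simp
  · have h1 := matrix_pow_cs (cmat ℓ σ H) (cmat_symm ℓ σ H)
      (Finset.sum_nonneg fun i _ => Finset.sum_nonneg fun j _ => by
        rw [cmat, Matrix.of_apply]; positivity) hpos κ
    have h2 : ∑ i, ∑ j, (cmat ℓ σ H ^ (2 ^ κ)) i j ≤
        (Fintype.card ι : ℝ) * ((Fintype.card ι : ℝ) *
          ((H : ℝ) ^ (2 ^ κ) * hs H ^ (2 ^ κ * 2 ^ κ))) := by
      have h3 : ∀ i j, (cmat ℓ σ H ^ (2 ^ κ)) i j ≤
          (H : ℝ) ^ (2 ^ κ) * hs H ^ (2 ^ κ * 2 ^ κ) := by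
        intro i j
        refine (cmat_pow_le ℓ σ H hsep (2 ^ κ) i j).trans ?_
        refine le_trans ?_ (card_eqp_le H (2 ^ κ))
        have := coinS_card_le σ H (2 ^ κ) (ℓ i) (ℓ j) hσ hH
        exact_mod_cast this
      calc ∑ i, ∑ j, (cmat ℓ σ H ^ (2 ^ κ)) i j
          ≤ ∑ _i : ι, ∑ _j : ι, ((H : ℝ) ^ (2 ^ κ) * hs H ^ (2 ^ κ * 2 ^ κ)) :=
            Finset.sum_le_sum fun i _ => Finset.sum_le_sum fun j _ => h3 i j
        _ = _ := by
            rw [Finset.sum_const, Finset.sum_const, Finset.card_univ, nsmul_eq_mul, nsmul_eq_mul]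
    have hcr : (0 : ℝ) < (Fintype.card ι : ℝ) := by exact_mod_cast hpos
    have h4 : (∑ i, ∑ j, ((coinSet σ H (ℓ i) (ℓ j)).card : ℝ)) ^ (2 ^ κ) *
        (Fintype.card ι : ℝ) ≤ (Fintype.card ι : ℝ) ^ (2 ^ κ + 1) *
          ((H : ℝ) ^ (2 ^ κ) * hs H ^ (2 ^ κ * 2 ^ κ)) * (Fintype.card ι : ℝ) := by
      refine h1.trans ?_
      refine (mul_le_mul_of_nonneg_left h2 (by positivity)).trans (le_of_eq ?_)
      ring
    exact le_of_mul_le_mul_right h4 hcr

end Pool.Agent.W_MP_0d5018_nt
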