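import Mathlib

/-!
The tree of surviving dyadic intervals.
-/

namespace Pool.Agent.W_MP_0d5018_nt

open Classical

/-- the dyadic interval `k` at level `n` is removed -/
def bad (T : ℕ → Finset ℝ) (w n k : ℕ) : Prop :=
  ∃ t ∈ T n, ∃ z : ℤ, |t * ((k : ℝ) / 2 ^ (n + w)) - z| < 4 / 2 ^ w

/-- surviving intervals at level `n` -/
noncomputable def alive (T : ℕ → Finset ℝ) (w : ℕ) : ℕ → Finset ℕ
  | 0 => {0}
  | n + 1 => (Finset.range (2 ^ (n + 1))).filter (fun k => k / 2 ∈ alive T w n ∧ ¬ bad T w (n + 1) k)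

/-- intervals killed at level `n + 1` -/
noncomputable def killed (T : ℕ → Finset ℝ) (w n : ℕ) : Finset ℕ :=
  (Finset.range (2 ^ (n + 1))).filter (fun k => k / 2 ∈ alive T w n ∧ bad T w (n + 1) k)

variable (T : ℕ → Finset ℝ) (w : ℕ)

theorem alive_lt {n k : ℕ} (h : k ∈ alive T w n) : k < 2 ^ n := by
  cases n with
  | zero => rw [alive, Finset.mem_singleton] at h; subst h; norm_num
  | succ n => rw [alive, Finset.mem_filter, Finset.mem_range] at h; exact h.1

theorem alive_anc {n i k : ℕ} (h : k ∈ alive T w (n + i)) : k / 2 ^ i ∈ alive T w n := by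
  induction i generalizing k with
  | zero => simpa using h
  | succ i ih =>
    rw [← add_assoc, alive, Finset.mem_filter] at h
    have := ih h.2.1
    rw [Nat.div_div_eq_div_mul, ← pow_succ'] at this
    exact this

theorem card_succ (n : ℕ) :
    (alive T w (n + 1)).card + (killed T w n).card = 2 * (alive T w n).card := by
  have h1 : (alive T w (n + 1)).card + (killed T w n).card =
      ((Finset.range (2 ^ (n + 1))).filter (fun k => k / 2 ∈ alive T w n)).card := by
    rw [alive, killed, ← Finset.card_union_of_disjoint]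
    · congr 1
      ext k
      simp only [Finset.mem_union, Finset.mem_filter]
      tauto
    · rw [Finset.disjoint_left]
      intro k h1 h2
      rw [Finset.mem_filter] at h1 h2
      exact h1.2.2 h2.2.2
  rw [h1, Finset.card_eq_sum_card_fiberwise (f := fun k => k / 2) (t := alive T w n)
    (by intro k hk; rw [Finset.mem_coe, Finset.mem_filter] at hk; exact hk.2)]
  have h2 : ∀ J ∈ alive T w n, (((Finset.range (2 ^ (n + 1))).filter
      (fun k => k / 2 ∈ alive T w n)).filter (fun k => k / 2 = J)).card = 2 := by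
    intro J hJ
    have hJ' := alive_lt T w hJ
    have : (((Finset.range (2 ^ (n + 1))).filter
      (fun k => k / 2 ∈ alive T w n)).filter (fun k => k / 2 = J)) = {2 * J, 2 * J + 1} := by
      ext k
      simp only [Finset.mem_filter, Finset.mem_range, Finset.mem_insert, Finset.mem_singleton]
      constructor
      · rintro ⟨-, h⟩; omega
      · intro h
        have h3 : k / 2 = J := by omega
        refine ⟨⟨?_, by rw [h3]; exact hJ⟩, h3⟩
        rw [pow_succ]; omega
    rw [this, Finset.card_insert_of_notMem (by simp), Finset.card_singleton]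
  rw [Finset.sum_congr rfl h2, Finset.sum_const, smul_eq_mul, mul_comm]

theorem killed_card_le (s q r : ℕ) (n : ℕ) (hr : 1 ≤ r) (hn : n + 1 = s + q + r) :
    (killed T w n).card ≤ ∑ J ∈ alive T w (s + q),
      ((Finset.Ico (J * 2 ^ r) ((J + 1) * 2 ^ r)).filter (bad T w (n + 1))).card := by
  obtain ⟨r', rfl⟩ : ∃ r', r = r' + 1 := ⟨r - 1, by omega⟩
  have hn' : n = (s + q) + r' := by omega
  rw [Finset.card_eq_sum_card_fiberwise (f := fun k => k / 2 ^ (r' + 1)) (t := alive T w (s + q))]
  · refine Finset.sum_le_sum fun J _ => Finset.card_le_card ?_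
    intro k hk
    rw [Finset.mem_filter] at hk
    obtain ⟨h1, h2⟩ := hk
    rw [killed, Finset.mem_filter] at h1
    rw [Finset.mem_filter, Finset.mem_Ico]
    have hp : 0 < 2 ^ (r' + 1) := by positivity
    refine ⟨?_, h1.2.2⟩
    have h3 := Nat.div_add_mod k (2 ^ (r' + 1))
    have h4 := Nat.mod_lt k hp
    rw [h2] at h3
    constructor
    · rw [mul_comm]; omega
    · rw [add_mul, one_mul, mul_comm]; omega
  · intro k hk
    rw [Finset.mem_coe, killed, Finset.mem_filter] at hk
    have h1 := hk.2.1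
    rw [hn'] at h1
    have h2 := alive_anc T w h1
    rw [Nat.div_div_eq_div_mul, ← pow_succ'] at h2
    exact h2

theorem chain_lower (θ : ℝ) (hθ : θ ≤ 1) (n i : ℕ)
    (h : ∀ m < n + i, 2 * (1 - θ) * ((alive T w m).card : ℝ) ≤ ((alive T w (m + 1)).card : ℝ)) :
    (2 * (1 - θ)) ^ i * ((alive T w n).card : ℝ) ≤ ((alive T w (n + i)).card : ℝ) := by
  induction i with
  | zero => simp
  | succ i ih =>
    have h1 := ih (fun m hm => h m (by omega))
    have h2 := h (n + i) (by omega)
    have h3 : 0 ≤ 2 * (1 - θ) := by linarith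
    rw [pow_succ', mul_assoc, ← add_assoc]
    exact (mul_le_mul_of_nonneg_left h1 h3).trans h2

/-- Growth of the tree. -/
theorem tree_growth (r q : ℕ) (hr : 1 ≤ r) (θ β ε : ℝ) (hθ0 : 0 ≤ θ) (hθ : θ ≤ 1) (hβ : 0 ≤ β)
    (Abn : ℕ → ℕ → Prop)
    (h1 : ∀ n < r + q, T n = ∅)
    (h2 : ∀ s J : ℕ, ¬ Abn s J →
      (((Finset.Ico (J * 2 ^ r) ((J + 1) * 2 ^ r)).filter (bad T w (s + q + r))).card : ℝ) ≤ β)
    (h3 : ∀ s I : ℕ,
      (((Finset.Ico (I * 2 ^ q) ((I + 1) * 2 ^ q)).filter (Abn s)).card : ℝ) ≤ ε * 2 ^ q)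
    (h4 : β ≤ θ * (2 * (1 - θ)) ^ (r - 1))
    (h5 : 2 ^ r * (ε * 2 ^ q) ≤ θ * (2 * (1 - θ)) ^ (r + q - 1)) (n : ℕ) :
    2 * (1 - θ) * ((alive T w n).card : ℝ) ≤ ((alive T w (n + 1)).card : ℝ) := by
  induction n using Nat.strong_induction_on with
  | _ n ih =>
    have hc : ((alive T w (n + 1)).card : ℝ) + ((killed T w n).card : ℝ) =
        2 * ((alive T w n).card : ℝ) := by exact_mod_cast card_succ T w n
    have ha0 : (0 : ℝ) ≤ ((alive T w n).card : ℝ) := by positivity
    rcases Nat.lt_or_ge (n + 1) (r + q) with hlt | hge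
    · have hk : killed T w n = ∅ := by
        rw [killed, Finset.filter_eq_empty_iff]
        rintro k - ⟨-, t, ht, -⟩
        rw [h1 _ hlt] at ht
        simp at ht
      rw [hk, Finset.card_empty, Nat.cast_zero, add_zero] at hc
      rw [hc]
      nlinarith
    · obtain ⟨s, hs⟩ : ∃ s, n + 1 = s + q + r := ⟨n + 1 - (r + q), by omega⟩
      have hk := killed_card_le T w s q r n hr hs
      have hk' : ((killed T w n).card : ℝ) ≤ ∑ J ∈ alive T w (s + q),
        (((Finset.Ico (J * 2 ^ r) ((J + 1) * 2 ^ r)).filter (bad T w (s + q + r))).card : ℝ) := by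
        rw [hs] at hk
        exact_mod_cast hk
      have hJ : ∀ J ∈ alive T w (s + q),
          (((Finset.Ico (J * 2 ^ r) ((J + 1) * 2 ^ r)).filter (bad T w (s + q + r))).card : ℝ) ≤
          β + if Abn s J then 2 ^ r else 0 := by
        intro J _
        by_cases hab : Abn s J
        · rw [if_pos hab]
          have h6 : ((Finset.Ico (J * 2 ^ r) ((J + 1) * 2 ^ r)).filter
              (bad T w (s + q + r))).card ≤ 2 ^ r := by
            refine (Finset.card_filter_le _ _).trans ?_
            rw [Nat.card_Ico, add_mul, one_mul, Nat.add_sub_cancel_left]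
          have h7 : (((Finset.Ico (J * 2 ^ r) ((J + 1) * 2 ^ r)).filter
              (bad T w (s + q + r))).card : ℝ) ≤ 2 ^ r := by exact_mod_cast h6
          linarith
        · rw [if_neg hab, add_zero]
          exact h2 s J hab
      have hab : (((alive T w (s + q)).filter (Abn s)).card : ℝ) ≤
          ((alive T w s).card : ℝ) * (ε * 2 ^ q) := by
        have h8 : ((alive T w (s + q)).filter (Abn s)).card ≤ ∑ I ∈ alive T w s,
            ((Finset.Ico (I * 2 ^ q) ((I + 1) * 2 ^ q)).filter (Abn s)).card := by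
          rw [Finset.card_eq_sum_card_fiberwise (f := fun k => k / 2 ^ q) (t := alive T w s)]
          · refine Finset.sum_le_sum fun I _ => Finset.card_le_card ?_
            intro k hk
            rw [Finset.mem_filter, Finset.mem_filter] at hk
            obtain ⟨⟨h1, h3⟩, h2⟩ := hk
            rw [Finset.mem_filter, Finset.mem_Ico]
            have hp : 0 < 2 ^ q := by positivity
            refine ⟨?_, h3⟩
            have h3 := Nat.div_add_mod k (2 ^ q)
            have h4 := Nat.mod_lt k hp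
            rw [h2] at h3
            constructor
            · rw [mul_comm]; omega
            · rw [add_mul, one_mul, mul_comm]; omega
          · intro k hk
            rw [Finset.mem_coe, Finset.mem_filter] at hk
            exact alive_anc T w hk.1
        calc (((alive T w (s + q)).filter (Abn s)).card : ℝ)
            ≤ ∑ I ∈ alive T w s,
            (((Finset.Ico (I * 2 ^ q) ((I + 1) * 2 ^ q)).filter (Abn s)).card : ℝ) := by
              exact_mod_cast h8
          _ ≤ ∑ _I ∈ alive T w s, ε * 2 ^ q := Finset.sum_le_sum fun I _ => h3 s I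
          _ = _ := by rw [Finset.sum_const, nsmul_eq_mul]
      have htot : ((killed T w n).card : ℝ) ≤
          β * ((alive T w (s + q)).card : ℝ) + 2 ^ r * (((alive T w s).card : ℝ) * (ε * 2 ^ q)) := by
        refine hk'.trans ((Finset.sum_le_sum hJ).trans ?_)
        rw [Finset.sum_add_distrib, Finset.sum_const, nsmul_eq_mul, ← Finset.sum_filter,
          Finset.sum_const, nsmul_eq_mul, mul_comm]
        have := mul_le_mul_of_nonneg_left hab (show (0 : ℝ) ≤ 2 ^ r by positivity)
        linarith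
      have c1 := chain_lower T w θ hθ (s + q) (r - 1)
        (fun m hm => ih m (by omega))
      have c2 := chain_lower T w θ hθ s (r + q - 1)
        (fun m hm => ih m (by omega))
      rw [show s + q + (r - 1) = n by omega] at c1
      rw [show s + (r + q - 1) = n by omega] at c2
      have d1 : β * ((alive T w (s + q)).card : ℝ) ≤ θ * ((alive T w n).card : ℝ) := by
        calc β * ((alive T w (s + q)).card : ℝ)
            ≤ (θ * (2 * (1 - θ)) ^ (r - 1)) * ((alive T w (s + q)).card : ℝ) :=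
              mul_le_mul_of_nonneg_right h4 (by positivity)
          _ = θ * ((2 * (1 - θ)) ^ (r - 1) * ((alive T w (s + q)).card : ℝ)) := by ring
          _ ≤ _ := mul_le_mul_of_nonneg_left c1 hθ0
      have d2 : 2 ^ r * (((alive T w s).card : ℝ) * (ε * 2 ^ q)) ≤
          θ * ((alive T w n).card : ℝ) := by
        calc 2 ^ r * (((alive T w s).card : ℝ) * (ε * 2 ^ q))
            = (2 ^ r * (ε * 2 ^ q)) * ((alive T w s).card : ℝ) := by ring
          _ ≤ (θ * (2 * (1 - θ)) ^ (r + q - 1)) * ((alive T w s).card : ℝ) :=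
              mul_le_mul_of_nonneg_right h5 (by positivity)
          _ = θ * ((2 * (1 - θ)) ^ (r + q - 1) * ((alive T w s).card : ℝ)) := by ring
          _ ≤ _ := mul_le_mul_of_nonneg_left c2 hθ0
      linarith

theorem alive_nonempty (θ : ℝ) (hθ : θ < 1)
    (h : ∀ n, 2 * (1 - θ) * ((alive T w n).card : ℝ) ≤ ((alive T w (n + 1)).card : ℝ)) (n : ℕ) :
    (alive T w n).Nonempty := by
  rw [← Finset.card_pos]
  induction n with
  | zero => rw [alive]; simp
  | succ n ih =>
    have h1 := h n
    have h2 : (0 : ℝ) < ((alive T w n).card : ℝ) := by exact_mod_cast ih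
    have h3 : (0 : ℝ) < 2 * (1 - θ) * ((alive T w n).card : ℝ) := by
      apply mul_pos _ h2; linarith
    exact_mod_cast h3.trans_le h1

/-- A surviving interval at level `n` gives good points for all levels up to `n`. -/
theorem good_of_alive (hT : ∀ n, ∀ t ∈ T n, 0 ≤ t ∧ t < 2 ^ (n + 1)) {n k : ℕ}
    (hk : k ∈ alive T w n) (hT0 : T 0 = ∅) (i : ℕ) (hi : i ≤ n) (t : ℝ) (ht : t ∈ T i) (z : ℤ) :
    (2 : ℝ) / 2 ^ w ≤ |t * ((k : ℝ) / 2 ^ (n + w)) - z| := by
  obtain ⟨d, rfl⟩ : ∃ d, n = i + d := ⟨n - i, by omega⟩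
  have h1 := alive_anc T w hk
  cases i with
  | zero => rw [hT0] at ht; simp at ht
  | succ i =>
    rw [alive, Finset.mem_filter] at h1
    have h2 := h1.2.2
    rw [bad] at h2
    push Not at h2
    have h3 := h2 t ht z
    obtain ⟨ht0, ht1⟩ := hT _ t ht
    set a := k / 2 ^ d with ha
    have hdm := Nat.div_add_mod k (2 ^ d)
    have hml := Nat.mod_lt k (show 0 < 2 ^ d by positivity)
    rw [← ha] at hdm
    set b := k % 2 ^ d with hb
    have hkr : (k : ℝ) = 2 ^ d * a + b := by exact_mod_cast hdm.symm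
    have hbr : (b : ℝ) < 2 ^ d := by exact_mod_cast hml
    have hb0 : (0 : ℝ) ≤ b := by positivity
    have h4 : (k : ℝ) / 2 ^ (i + 1 + d + w) = (a : ℝ) / 2 ^ (i + 1 + w) +
        (b : ℝ) / 2 ^ (i + 1 + d + w) := by
      rw [hkr, add_div]
      congr 1
      rw [show i + 1 + d + w = d + (i + 1 + w) by ring, pow_add 2 d]
      field_simp
    have h5 : (b : ℝ) / 2 ^ (i + 1 + d + w) ≤ 1 / 2 ^ (i + 1 + w) := by
      rw [div_le_div_iff₀ (by positivity) (by positivity), one_mul,
        show i + 1 + d + w = d + (i + 1 + w) by ring, pow_add 2 d]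
      exact mul_le_mul_of_nonneg_right hbr.le (by positivity)
    have h6 : 0 ≤ (b : ℝ) / 2 ^ (i + 1 + d + w) := by positivity
    have h7 : t * ((b : ℝ) / 2 ^ (i + 1 + d + w)) ≤ 2 / 2 ^ w := by
      calc t * ((b : ℝ) / 2 ^ (i + 1 + d + w)) ≤ 2 ^ (i + 1 + 1) * (1 / 2 ^ (i + 1 + w)) :=
            mul_le_mul ht1.le h5 h6 (by positivity)
        _ = 2 / 2 ^ w := by
            rw [pow_succ 2 (i + 1), pow_add 2 (i + 1) w]
            field_simp
    have h8 : 0 ≤ t * ((b : ℝ) / 2 ^ (i + 1 + d + w)) := mul_nonneg ht0 h6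
    rw [h4, mul_add]
    have h9 : |t * ((a : ℝ) / 2 ^ (i + 1 + w)) - z| - |t * ((b : ℝ) / 2 ^ (i + 1 + d + w))| ≤
        |t * ((a : ℝ) / 2 ^ (i + 1 + w)) + t * ((b : ℝ) / 2 ^ (i + 1 + d + w)) - z| := by
      have := abs_sub_abs_le_abs_sub (t * ((a : ℝ) / 2 ^ (i + 1 + w)) - z)
        (-(t * ((b : ℝ) / 2 ^ (i + 1 + d + w))))
      rw [abs_neg] at this
      refine this.trans (le_of_eq ?_)
      congr 1
      ring
    rw [abs_of_nonneg h8] at h9
    have h10 : (4 : ℝ) / 2 ^ w = 2 / 2 ^ w + 2 / 2 ^ w := by ring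
    linarith

theorem exists_point (hT : ∀ n, ∀ t ∈ T n, 0 ≤ t ∧ t < 2 ^ (n + 1)) (hT0 : T 0 = ∅)
    (hne : ∀ n, (alive T w n).Nonempty) :
    ∃ α : ℝ, ∀ n, ∀ t ∈ T n, ∀ z : ℤ, (2 : ℝ) / 2 ^ w ≤ |t * α - z| := by
  set K : ℕ → Set ℝ := fun n => Set.Icc 0 1 ∩ {α | ∀ i ≤ n, ∀ t ∈ T i, ∀ z : ℤ,
    (2 : ℝ) / 2 ^ w ≤ |t * α - z|} with hK
  have hcl : ∀ n, IsClosed (K n) := by
    intro n
    refine isClosed_Icc.inter ?_
    simp only [Set.ofPred_forall]
    refine isClosed_iInter fun i => isClosed_iInter fun _ => isClosed_iInter fun t =>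
      isClosed_iInter fun _ => isClosed_iInter fun z => ?_
    exact isClosed_le continuous_const (by fun_prop)
  have hcomp : IsCompact (K 0) := isCompact_Icc.of_isClosed_subset (hcl 0) Set.inter_subset_left
  have hmono : ∀ n, K (n + 1) ⊆ K n := by
    rintro n α ⟨h1, h2⟩
    exact ⟨h1, fun i hi => h2 i (by omega)⟩
  have hnon : ∀ n, (K n).Nonempty := by
    intro n
    obtain ⟨k, hk⟩ := hne n
    refine ⟨(k : ℝ) / 2 ^ (n + w), ⟨⟨by positivity, ?_⟩, ?_⟩⟩
    · rw [div_le_one (by positivity)]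
      have h1 := alive_lt T w hk
      have h2 : 2 ^ n ≤ 2 ^ (n + w) := Nat.pow_le_pow_right (by norm_num) (by omega)
      have h3 : k ≤ 2 ^ (n + w) := by omega
      exact_mod_cast h3
    · intro i hi t ht z
      exact good_of_alive T w hT hk hT0 i hi t ht z
  obtain ⟨α, hα⟩ := IsCompact.nonempty_iInter_of_sequence_nonempty_isCompact_isClosed K hmono hnon
    hcomp hcl
  rw [Set.mem_iInter] at hα
  exact ⟨α, fun n t ht z => (hα n).2 n le_rfl t ht z⟩

end Pool.Agent.W_MP_0d5018_nt
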