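import Mathlib

/-!
Exponential sums: geometric sums, the Fejer kernel and a mean square estimate.
-/

namespace Pool.Agent.W_MP_0d5018_nt

open Complex ComplexConjugate

/-- `exp (2 pi i x)` -/
noncomputable def ee (x : ℝ) : ℂ := Complex.exp (Complex.I * ((2 * Real.pi * x : ℝ) : ℂ))

theorem ee_add (x y : ℝ) : ee (x + y) = ee x * ee y := by
  rw [ee, ee, ee, ← Complex.exp_add]
  congr 1
  push_cast
  ring

theorem norm_ee (x : ℝ) : ‖ee x‖ = 1 := by
  rw [ee, mul_comm, Complex.norm_exp_ofReal_mul_I]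

theorem ee_zero : ee 0 = 1 := by simp [ee]

theorem ee_neg (x : ℝ) : ee (-x) = conj (ee x) := by
  rw [ee, ee, ← Complex.exp_conj, map_mul, Complex.conj_I, Complex.conj_ofReal]
  congr 1
  push_cast
  ring

theorem ee_re (x : ℝ) : (ee x).re = Real.cos (2 * Real.pi * x) := by
  rw [ee, mul_comm, Complex.exp_ofReal_mul_I_re]

theorem ee_nat_mul (n : ℕ) (x : ℝ) : ee (n * x) = ee x ^ n := by
  rw [ee, ee, ← Complex.exp_nat_mul]
  congr 1
  push_cast
  ring

theorem ee_sub_int (x : ℝ) (z : ℤ) : ee (x - z) = ee x := by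
  rw [ee, ee, Complex.exp_eq_exp_iff_exists_int]
  refine ⟨-z, ?_⟩
  push_cast
  ring

theorem norm_ee_sub_one (x : ℝ) (hx : |x| ≤ 1 / 2) : 4 * |x| ≤ ‖ee x - 1‖ := by
  rw [ee, Complex.norm_exp_I_mul_ofReal_sub_one, Real.norm_eq_abs, abs_mul, abs_two]
  have h1 : |2 * Real.pi * x / 2| ≤ Real.pi / 2 := by
    rw [show 2 * Real.pi * x / 2 = Real.pi * x by ring, abs_mul, abs_of_pos Real.pi_pos]
    nlinarith [Real.pi_pos]
  have h2 := Real.mul_abs_le_abs_sin h1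
  have h3 : 2 / Real.pi * |2 * Real.pi * x / 2| = 2 * |x| := by
    rw [show 2 * Real.pi * x / 2 = Real.pi * x by ring, abs_mul, abs_of_pos Real.pi_pos]
    have := Real.pi_pos.ne'
    field_simp
  rw [h3] at h2
  linarith

theorem geom_bound (a θ : ℝ) (G : ℕ) (h0 : θ ≠ 0) (hθ : |θ| ≤ 1 / 2) :
    ‖∑ j ∈ Finset.range G, ee (a + j * θ)‖ ≤ 1 / (2 * |θ|) := by
  have h1 : ∑ j ∈ Finset.range G, ee (a + j * θ) = ee a * ((ee θ ^ G - 1) / (ee θ - 1)) := by
    rw [← geom_sum_eq, Finset.mul_sum]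
    · refine Finset.sum_congr rfl fun j _ => ?_
      rw [ee_add, ee_nat_mul]
    · intro h
      have := norm_ee_sub_one θ hθ
      rw [h, sub_self, norm_zero] at this
      have h3 : 0 < |θ| := abs_pos.2 h0
      linarith
  have h3 : 0 < |θ| := abs_pos.2 h0
  have h4 := norm_ee_sub_one θ hθ
  rw [h1, norm_mul, norm_ee, one_mul, norm_div]
  have h5 : ‖ee θ ^ G - 1‖ ≤ 2 := by
    refine (norm_sub_le _ _).trans ?_
    rw [norm_pow, norm_ee, one_pow, norm_one]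
    norm_num
  rw [div_le_div_iff₀ (by linarith) (by linarith)]
  nlinarith

theorem mean_sq {ι : Type*} (P : Finset ι) (φ c : ι → ℝ) (C : ℝ)
    (hc : ∀ p ∈ P, 0 ≤ c p ∧ c p ≤ C) (x0 Δ τ : ℝ) (hΔ : 0 < Δ) (hτ : 0 < τ)
    (hw : ∀ p ∈ P, ∀ q ∈ P, |φ p - φ q| * Δ ≤ 1 / 2) (G : ℕ) :
    ∑ j ∈ Finset.range G, ‖∑ p ∈ P, ((c p : ℝ) : ℂ) * ee (φ p * (x0 + j * Δ))‖ ^ 2 ≤
      C ^ 2 * (G * (((P ×ˢ P).filter (fun x => |φ x.1 - φ x.2| < τ)).card : ℝ) +
        (P.card : ℝ) ^ 2 / (2 * (τ * Δ))) := by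
  have e1 : ∀ j : ℕ, ((‖∑ p ∈ P, ((c p : ℝ) : ℂ) * ee (φ p * (x0 + j * Δ))‖ ^ 2 : ℝ) : ℂ) =
      ∑ x ∈ P ×ˢ P, ((c x.1 * c x.2 : ℝ) : ℂ) * ee ((φ x.1 - φ x.2) * (x0 + j * Δ)) := by
    intro j
    rw [← Complex.normSq_eq_norm_sq, ← Complex.mul_conj, map_sum, Finset.sum_mul_sum,
      Finset.sum_product]
    refine Finset.sum_congr rfl fun p _ => Finset.sum_congr rfl fun q _ => ?_
    rw [map_mul, Complex.conj_ofReal, ← ee_neg,
      show (φ p - φ q) * (x0 + j * Δ) = φ p * (x0 + j * Δ) + -(φ q * (x0 + j * Δ)) by ring, ee_add]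
    push_cast
    ring
  have e2 : ((∑ j ∈ Finset.range G,
      ‖∑ p ∈ P, ((c p : ℝ) : ℂ) * ee (φ p * (x0 + j * Δ))‖ ^ 2 : ℝ) : ℂ) =
      ∑ x ∈ P ×ˢ P, ((c x.1 * c x.2 : ℝ) : ℂ) *
        ∑ j ∈ Finset.range G, ee ((φ x.1 - φ x.2) * x0 + j * ((φ x.1 - φ x.2) * Δ)) := by
    rw [Complex.ofReal_sum, Finset.sum_congr rfl fun j _ => e1 j, Finset.sum_comm]
    refine Finset.sum_congr rfl fun x _ => ?_
    rw [Finset.mul_sum]
    refine Finset.sum_congr rfl fun j _ => ?_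
    rw [show (φ x.1 - φ x.2) * (x0 + j * Δ) =
      (φ x.1 - φ x.2) * x0 + j * ((φ x.1 - φ x.2) * Δ) by ring]
  set S := ∑ j ∈ Finset.range G, ‖∑ p ∈ P, ((c p : ℝ) : ℂ) * ee (φ p * (x0 + j * Δ))‖ ^ 2 with hS
  have hS0 : 0 ≤ S := Finset.sum_nonneg fun _ _ => by positivity
  have e3 : S = ‖(S : ℂ)‖ := by rw [Complex.norm_real, Real.norm_eq_abs, abs_of_nonneg hS0]
  rw [e3, e2]
  refine (norm_sum_le _ _).trans ?_
  have hbd : ∀ x ∈ P ×ˢ P, ‖((c x.1 * c x.2 : ℝ) : ℂ) *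
        ∑ j ∈ Finset.range G, ee ((φ x.1 - φ x.2) * x0 + j * ((φ x.1 - φ x.2) * Δ))‖ ≤
      C ^ 2 * ((if |φ x.1 - φ x.2| < τ then (G : ℝ) else 0) + 1 / (2 * (τ * Δ))) := by
    intro x hx
    rw [Finset.mem_product] at hx
    obtain ⟨hp, hq⟩ := hx
    obtain ⟨c1, c2⟩ := hc _ hp
    obtain ⟨c3, c4⟩ := hc _ hq
    rw [norm_mul, Complex.norm_real, Real.norm_eq_abs, abs_of_nonneg (mul_nonneg c1 c3)]
    have h1 : c x.1 * c x.2 ≤ C ^ 2 := by
      rw [sq]; exact mul_le_mul c2 c4 c3 (c1.trans c2)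
    refine mul_le_mul h1 ?_ (norm_nonneg _) (by positivity)
    by_cases h : |φ x.1 - φ x.2| < τ
    · rw [if_pos h]
      have h2 : ‖∑ j ∈ Finset.range G, ee ((φ x.1 - φ x.2) * x0 + j * ((φ x.1 - φ x.2) * Δ))‖
          ≤ G := by
        refine (norm_sum_le _ _).trans ?_
        simp [norm_ee]
      have h3 : 0 ≤ 1 / (2 * (τ * Δ)) := by positivity
      linarith
    · rw [if_neg h, zero_add]
      push Not at h
      have h4 : τ * Δ ≤ |(φ x.1 - φ x.2) * Δ| := by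
        rw [abs_mul, abs_of_pos hΔ]
        exact mul_le_mul_of_nonneg_right h hΔ.le
      have h5 : 0 < τ * Δ := by positivity
      have h6 : (φ x.1 - φ x.2) * Δ ≠ 0 := by
        intro h0
        rw [h0, abs_zero] at h4
        linarith
      refine (geom_bound _ _ G h6 ?_).trans ?_
      · rw [abs_mul, abs_of_pos hΔ]
        exact hw _ hp _ hq
      · exact one_div_le_one_div_of_le (by positivity) (by linarith)
  refine (Finset.sum_le_sum hbd).trans (le_of_eq ?_)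
  rw [← Finset.mul_sum, Finset.sum_add_distrib, ← Finset.sum_filter, Finset.sum_const,
    Finset.sum_const, Finset.card_product, nsmul_eq_mul, nsmul_eq_mul]
  push_cast
  ring

/-- Fejer identity -/
theorem fejer (H : ℕ) (y : ℝ) :
    ‖∑ m ∈ Finset.range H, ee (m * y)‖ ^ 2 =
      H + ∑ d ∈ Finset.Icc 1 H, 2 * ((H : ℝ) - d) * Real.cos (2 * Real.pi * (d * y)) := by
  induction H with
  | zero => simp
  | succ H ih =>
    have h1 : ‖∑ m ∈ Finset.range (H + 1), ee (m * y)‖ ^ 2 =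
        ‖∑ m ∈ Finset.range H, ee (m * y)‖ ^ 2 + 1 +
          ∑ d ∈ Finset.Icc 1 H, 2 * Real.cos (2 * Real.pi * (d * y)) := by
      rw [Finset.sum_range_succ, ← Complex.normSq_eq_norm_sq, Complex.normSq_add,
        Complex.normSq_eq_norm_sq, Complex.normSq_eq_norm_sq, norm_ee, one_pow, ← ee_neg,
        Finset.sum_mul, Complex.re_sum]
      congr 1
      rw [Finset.mul_sum]
      refine Finset.sum_bij' (fun m _ => H - m) (fun d _ => H - d) ?_ ?_ ?_ ?_ ?_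
      · intro m hm
        rw [Finset.mem_range] at hm
        rw [Finset.mem_Icc]; omega
      · intro d hd
        rw [Finset.mem_Icc] at hd
        rw [Finset.mem_range]; omega
      · intro m hm
        rw [Finset.mem_range] at hm
        omega
      · intro d hd
        rw [Finset.mem_Icc] at hd
        omega
      · intro m hm
        rw [Finset.mem_range] at hm
        rw [← ee_add, ee_re, Nat.cast_sub hm.le, ← Real.cos_neg]
        congr 2
        ring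
    rw [h1, ih, Finset.sum_Icc_succ_top (by omega)]
    push_cast
    have h2 : ∑ d ∈ Finset.Icc 1 H, 2 * ((H : ℝ) + 1 - d) * Real.cos (2 * Real.pi * (d * y)) =
        ∑ d ∈ Finset.Icc 1 H, 2 * ((H : ℝ) - d) * Real.cos (2 * Real.pi * (d * y)) +
        ∑ d ∈ Finset.Icc 1 H, 2 * Real.cos (2 * Real.pi * (d * y)) := by
      rw [← Finset.sum_add_distrib]
      refine Finset.sum_congr rfl fun d _ => ?_
      ring
    rw [h2]
    ring

theorem dirichlet_lower (H : ℕ) (y : ℝ) (z : ℤ) (hH : 1 ≤ H) (hy : |y - z| ≤ 1 / (8 * H)) :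
    (H : ℝ) ^ 2 / 2 ≤ ‖∑ m ∈ Finset.range H, ee (m * y)‖ ^ 2 := by
  have hHr : (0 : ℝ) < H := by exact_mod_cast hH
  have h1 : ∀ m ∈ Finset.range H, √2 / 2 ≤ (ee (m * y)).re := by
    intro m hm
    rw [Finset.mem_range] at hm
    have h2 : ee (m * y) = ee (m * (y - z)) := by
      rw [ee_nat_mul, ee_nat_mul, ee_sub_int]
    rw [h2, ee_re, ← Real.cos_pi_div_four, ← Real.cos_abs (2 * Real.pi * (m * (y - z)))]
    refine Real.cos_le_cos_of_nonneg_of_le_pi (abs_nonneg _) (by linarith [Real.pi_pos]) ?_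
    rw [abs_mul, abs_mul, abs_mul, abs_two, abs_of_pos Real.pi_pos, Nat.abs_cast]
    have hm' : (m : ℝ) ≤ H := by exact_mod_cast hm.le
    have h3 : (m : ℝ) * |y - z| ≤ 1 / 8 := by
      calc (m : ℝ) * |y - z| ≤ H * (1 / (8 * H)) :=
            mul_le_mul hm' hy (abs_nonneg _) hHr.le
        _ = 1 / 8 := by field_simp
    nlinarith [Real.pi_pos]
  have h4 : (H : ℝ) * (√2 / 2) ≤ (∑ m ∈ Finset.range H, ee (m * y)).re := by
    rw [Complex.re_sum]
    calc (H : ℝ) * (√2 / 2) = ∑ _m ∈ Finset.range H, (√2 / 2 : ℝ) := by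
          rw [Finset.sum_const, Finset.card_range, nsmul_eq_mul]
      _ ≤ _ := Finset.sum_le_sum h1
  have h5 : (H : ℝ) * (√2 / 2) ≤ ‖∑ m ∈ Finset.range H, ee (m * y)‖ :=
    h4.trans ((le_abs_self _).trans (Complex.abs_re_le_norm _))
  calc (H : ℝ) ^ 2 / 2 = ((H : ℝ) * (√2 / 2)) ^ 2 := by
        rw [mul_pow, div_pow, Real.sq_sqrt (by norm_num)]; ring
    _ ≤ _ := pow_le_pow_left₀ (by positivity) h5 2

/-- the oscillating part of the majorant, summed over `T` -/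
noncomputable def Rs (T : Finset ℝ) (H : ℕ) (x : ℝ) : ℂ :=
  ∑ p ∈ Finset.Icc 1 H ×ˢ T, ((2 * ((H : ℝ) - p.1) / (H : ℝ) ^ 2 : ℝ) : ℂ) *
    ee ((p.1 * p.2) * x)

open Classical in
/-- number of `t` in `T` with `t x` close to an integer -/
noncomputable def Nc (T : Finset ℝ) (H : ℕ) (x : ℝ) : ℕ :=
  (T.filter (fun t => ∃ z : ℤ, |t * x - z| ≤ 1 / (8 * H))).card

theorem Nc_le (T : Finset ℝ) (H : ℕ) (x : ℝ) (hH : 1 ≤ H) :
    (Nc T H x : ℝ) ≤ 2 * ((T.card : ℝ) / H + ‖Rs T H x‖) := by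
  classical
  have hHr : (0 : ℝ) < H := by exact_mod_cast hH
  have h1 : (Nc T H x : ℝ) ≤
      ∑ t ∈ T, 2 * (‖∑ m ∈ Finset.range H, ee (m * (t * x))‖ ^ 2 / (H : ℝ) ^ 2) := by
    calc (Nc T H x : ℝ) = ∑ t ∈ T.filter (fun t => ∃ z : ℤ, |t * x - z| ≤ 1 / (8 * H)), (1 : ℝ) := by
          rw [Nc, Finset.sum_const, nsmul_eq_mul, mul_one]
      _ ≤ ∑ t ∈ T.filter (fun t => ∃ z : ℤ, |t * x - z| ≤ 1 / (8 * H)),
            2 * (‖∑ m ∈ Finset.range H, ee (m * (t * x))‖ ^ 2 / (H : ℝ) ^ 2) := by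
          refine Finset.sum_le_sum fun t ht => ?_
          obtain ⟨z, hz⟩ := (Finset.mem_filter.1 ht).2
          have := dirichlet_lower H (t * x) z hH hz
          rw [← mul_div_assoc, le_div_iff₀ (by positivity)]
          linarith
      _ ≤ _ := Finset.sum_le_sum_of_subset_of_nonneg (Finset.filter_subset _ _)
            (fun _ _ _ => by positivity)
  refine h1.trans ?_
  rw [← Finset.mul_sum]
  refine mul_le_mul_of_nonneg_left ?_ (by norm_num)
  have h2 : ∑ t ∈ T, ‖∑ m ∈ Finset.range H, ee (m * (t * x))‖ ^ 2 / (H : ℝ) ^ 2 =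
      (T.card : ℝ) / H + (Rs T H x).re := by
    rw [Rs, Complex.re_sum, Finset.sum_product_right, ← nsmul_one T.card, ← Finset.sum_const,
      Finset.sum_div, ← Finset.sum_add_distrib]
    refine Finset.sum_congr rfl fun t _ => ?_
    rw [fejer, add_div]
    congr 1
    · rw [sq]; field_simp
    · rw [Finset.sum_div]
      refine Finset.sum_congr rfl fun d _ => ?_
      rw [Complex.re_ofReal_mul, ee_re]
      rw [show (d : ℝ) * (t * x) = d * t * x by ring]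
      ring
  rw [h2]
  have h3 : (Rs T H x).re ≤ ‖Rs T H x‖ := (le_abs_self _).trans (Complex.abs_re_le_norm _)
  linarith

end Pool.Agent.W_MP_0d5018_nt
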