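import Pool.Agent.W_MP_0d5018_nt.Energy
import Pool.Agent.W_MP_0d5018_nt.Variance
import Pool.Agent.W_MP_0d5018_nt.Tree

/-!
Estimates on one dyadic level.
-/

namespace Pool.Agent.W_MP_0d5018_nt

open Classical

/-- A finite set of reals in `[2^n, 2^(n+1))`, separated by the factor `1 + 2^(-lam)`. -/
structure LevelSet (lam n : ℕ) (S : Finset ℝ) : Prop where
  lo : ∀ t ∈ S, (2 : ℝ) ^ n ≤ t
  hi : ∀ t ∈ S, t < (2 : ℝ) ^ (n + 1)
  card : S.card ≤ 2 ^ lam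
  sep : ∀ s ∈ S, ∀ t ∈ S, s < t → (1 + 1 / (2 : ℝ) ^ lam) * s ≤ t

theorem bad_block (T : ℕ → Finset ℝ) (h r m : ℕ) (hr : 1 ≤ r) (lam : ℕ)
    (hT : LevelSet lam (m + r) (T (m + r))) (J : ℕ) :
    ((Finset.Ico (J * 2 ^ r) ((J + 1) * 2 ^ r)).filter (bad T (h + r + 5) (m + r))).card ≤
      8 * Nc (T (m + r)) (2 ^ h) ((J : ℝ) / 2 ^ (m + (h + r + 5))) := by
  set w := h + r + 5 with hw
  set n := m + r with hn
  set B : ℝ → Finset ℕ := fun t => (Finset.Ico (J * 2 ^ r) ((J + 1) * 2 ^ r)).filter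
    (fun k => ∃ z : ℤ, |t * ((k : ℝ) / 2 ^ (n + w)) - z| < 4 / 2 ^ w) with hB
  have hwr : (32 : ℝ) * 2 ^ r ≤ 2 ^ w := by
    have : (2 : ℝ) ^ w = 2 ^ h * 2 ^ r * 32 := by rw [hw, pow_add, pow_add]; norm_num
    rw [this]
    have h1 : (1 : ℝ) ≤ 2 ^ h := one_le_pow₀ (by norm_num)
    have h2 : (0 : ℝ) < 2 ^ r := by positivity
    nlinarith
  have hr2 : (2 : ℝ) ≤ 2 ^ r := by
    calc (2 : ℝ) = 2 ^ 1 := by norm_num
      _ ≤ 2 ^ r := pow_le_pow_right₀ (by norm_num) hr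
  have hw0 : (0 : ℝ) < 2 ^ w := by positivity
  -- step bounds
  have hstep : ∀ t ∈ T n, 1 / 2 ^ w ≤ t / 2 ^ (n + w) ∧ t / 2 ^ (n + w) ≤ 2 / 2 ^ w := by
    intro t ht
    have h1 := hT.lo t ht
    have h2 := hT.hi t ht
    rw [pow_add 2 n w]
    constructor
    · rw [div_le_div_iff₀ hw0 (by positivity), one_mul]
      exact mul_le_mul_of_nonneg_right h1 hw0.le
    · rw [div_le_div_iff₀ (by positivity) hw0, ← mul_assoc]
      refine mul_le_mul_of_nonneg_right ?_ hw0.le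
      rw [pow_succ, mul_comm] at h2
      exact h2.le
  -- cardinality of one block for one t
  have hcard : ∀ t ∈ T n, (B t).card ≤ 8 := by
    intro t ht
    obtain ⟨s1, s2⟩ := hstep t ht
    rcases Finset.eq_empty_or_nonempty (B t) with he | hne
    · rw [he]; simp
    · set k0 := (B t).min' hne with hk0
      have hk0m : k0 ∈ B t := Finset.min'_mem _ _
      have hsub : B t ⊆ Finset.Icc k0 (k0 + 7) := by
        intro k hk
        have hle : k0 ≤ k := Finset.min'_le _ _ hk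
        rw [Finset.mem_Icc]
        refine ⟨hle, ?_⟩
        by_contra hcon
        push Not at hcon
        rw [hB, Finset.mem_filter, Finset.mem_Ico] at hk0m hk
        obtain ⟨⟨a1, a2⟩, z0, a3⟩ := hk0m
        obtain ⟨⟨b1, b2⟩, z, b3⟩ := hk
        obtain ⟨d, rfl⟩ : ∃ d, k = k0 + d := ⟨k - k0, by omega⟩
        have hd1 : d ≤ 2 ^ r := by
          rw [add_mul, one_mul] at b2; omega
        have hd2 : 8 ≤ d := by omega
        have hd1r : (d : ℝ) ≤ 2 ^ r := by exact_mod_cast hd1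
        have hd2r : (8 : ℝ) ≤ d := by exact_mod_cast hd2
        have e1 : t * (((k0 + d : ℕ) : ℝ) / 2 ^ (n + w)) =
            t * ((k0 : ℝ) / 2 ^ (n + w)) + t / 2 ^ (n + w) * d := by
          push_cast; ring
        rw [e1] at b3
        have c1 := abs_lt.1 a3
        have c2 := abs_lt.1 b3
        have c3 : t / 2 ^ (n + w) * d ≤ 2 / 2 ^ w * 2 ^ r :=
          mul_le_mul s2 hd1r (by positivity) (by positivity)
        have c4 : 1 / 2 ^ w * 8 ≤ t / 2 ^ (n + w) * d :=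
          mul_le_mul s1 hd2r (by norm_num) (le_trans (by positivity) s1)
        have c5 : (2 : ℝ) / 2 ^ w * 2 ^ r ≤ 1 / 16 := by
          rw [div_mul_eq_mul_div, div_le_div_iff₀ hw0 (by norm_num)]
          linarith
        have c6 : (4 : ℝ) / 2 ^ w ≤ 1 / 16 := by
          rw [div_le_div_iff₀ hw0 (by norm_num)]
          linarith
        have c7 : (1 : ℝ) / 2 ^ w * 8 = 4 / 2 ^ w + 4 / 2 ^ w := by ring
        have z1 : z = z0 := by
          have z2 : (z : ℝ) - z0 < 1 := by linarith [c1.1, c1.2, c2.1, c2.2]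
          have z3 : -1 < (z : ℝ) - z0 := by linarith [c1.1, c1.2, c2.1, c2.2]
          have z4 : z - z0 < 1 := by exact_mod_cast z2
          have z5 : -1 < z - z0 := by exact_mod_cast z3
          omega
        rw [z1] at c2
        linarith [c1.1, c1.2, c2.1, c2.2]
      calc (B t).card ≤ (Finset.Icc k0 (k0 + 7)).card := Finset.card_le_card hsub
        _ = 8 := by rw [Nat.card_Icc]; omega
  -- the union bound
  have hsub : (Finset.Ico (J * 2 ^ r) ((J + 1) * 2 ^ r)).filter (bad T w n) ⊆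
      ((T n).filter (fun t => ∃ z : ℤ, |t * ((J : ℝ) / 2 ^ (m + w)) - z| ≤
        1 / (8 * ((2 ^ h : ℕ) : ℝ)))).biUnion B := by
    intro k hk
    rw [Finset.mem_filter, Finset.mem_Ico] at hk
    obtain ⟨⟨b1, b2⟩, t, ht, z, b3⟩ := hk
    rw [Finset.mem_biUnion]
    refine ⟨t, ?_, ?_⟩
    · rw [Finset.mem_filter]
      refine ⟨ht, z, ?_⟩
      obtain ⟨s1, s2⟩ := hstep t ht
      obtain ⟨d, rfl⟩ : ∃ d, k = J * 2 ^ r + d := ⟨k - J * 2 ^ r, by omega⟩
      have hd1 : d ≤ 2 ^ r := by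
        rw [add_mul, one_mul] at b2; omega
      have hd1r : (d : ℝ) ≤ 2 ^ r := by exact_mod_cast hd1
      have e1 : t * (((J * 2 ^ r + d : ℕ) : ℝ) / 2 ^ (n + w)) =
          t * ((J : ℝ) / 2 ^ (m + w)) + t / 2 ^ (n + w) * d := by
        rw [hn, show m + r + w = r + (m + w) by ring, pow_add 2 r]
        push_cast
        field_simp
      rw [e1] at b3
      have c3 : t / 2 ^ (n + w) * d ≤ 2 / 2 ^ w * 2 ^ r :=
        mul_le_mul s2 hd1r (by positivity) (by positivity)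
      have c4 : 0 ≤ t / 2 ^ (n + w) * d := by
        have : 0 ≤ t / 2 ^ (n + w) := le_trans (by positivity) s1
        positivity
      have c2 := abs_lt.1 b3
      have c5 : 1 / (8 * ((2 ^ h : ℕ) : ℝ)) = 2 / 2 ^ w * 2 ^ r + 2 / 2 ^ w * 2 ^ r := by
        rw [hw, pow_add, pow_add]
        push_cast
        field_simp
        norm_num
      have c6 : (4 : ℝ) / 2 ^ w ≤ 2 / 2 ^ w * 2 ^ r := by
        rw [div_mul_eq_mul_div]
        exact div_le_div_of_nonneg_right (by linarith) hw0.le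
      rw [c5]
      exact abs_le.2 ⟨by linarith [c2.1, c2.2], by linarith [c2.1, c2.2]⟩
    · rw [hB, Finset.mem_filter, Finset.mem_Ico]
      exact ⟨⟨b1, b2⟩, z, b3⟩
  refine (Finset.card_le_card hsub).trans ?_
  refine (Finset.card_biUnion_le).trans ?_
  calc ∑ t ∈ (T n).filter (fun t => ∃ z : ℤ, |t * ((J : ℝ) / 2 ^ (m + w)) - z| ≤
        1 / (8 * ((2 ^ h : ℕ) : ℝ))), (B t).card
      ≤ ∑ t ∈ (T n).filter (fun t => ∃ z : ℤ, |t * ((J : ℝ) / 2 ^ (m + w)) - z| ≤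
        1 / (8 * ((2 ^ h : ℕ) : ℝ))), 8 := by
        refine Finset.sum_le_sum fun t ht => hcard t (Finset.mem_filter.1 ht).1
    _ = 8 * Nc (T n) (2 ^ h) ((J : ℝ) / 2 ^ (m + w)) := by
        rw [Finset.sum_const, smul_eq_mul, mul_comm, Nc]

/-- close pairs of frequencies -/
noncomputable def Qs (S : Finset ℝ) (H : ℕ) (τ : ℝ) : Finset ((ℕ × ℝ) × (ℕ × ℝ)) :=
  ((Finset.Icc 1 H ×ˢ S) ×ˢ (Finset.Icc 1 H ×ˢ S)).filter
    (fun x => |(x.1.1 : ℝ) * x.1.2 - (x.2.1 : ℝ) * x.2.2| < τ)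

theorem log_close {a b c σ : ℝ} (hc : 0 < c) (ha : c ≤ a) (hb : c ≤ b) (hσ : 0 ≤ σ)
    (h : |a - b| < σ * c) : |Real.log a - Real.log b| ≤ σ := by
  wlog hab : b ≤ a generalizing a b with Hw
  · rw [abs_sub_comm]
    exact Hw hb ha (by rwa [abs_sub_comm]) (not_le.1 hab).le
  have ha0 : 0 < a := hc.trans_le ha
  have hb0 : 0 < b := hc.trans_le hb
  rw [abs_of_nonneg (by linarith)] at h
  rw [abs_of_nonneg (sub_nonneg.2 (Real.log_le_log hb0 hab))]
  have h1 : Real.log (a / b) ≤ a / b - 1 := Real.log_le_sub_one_of_pos (by positivity)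
  rw [Real.log_div ha0.ne' hb0.ne'] at h1
  have h2 : a / b - 1 ≤ σ := by
    rw [div_sub_one hb0.ne', div_le_iff₀ hb0]
    nlinarith
  linarith

theorem Qs_card_le (S : Finset ℝ) (H n : ℕ) (σ : ℝ) (hσ : 0 ≤ σ)
    (hlo : ∀ t ∈ S, (2 : ℝ) ^ n ≤ t) :
    ((Qs S H (σ * 2 ^ n)).card : ℝ) ≤
      ∑ i : S, ∑ j : S, ((coinSet σ H (Real.log (i : ℝ)) (Real.log (j : ℝ))).card : ℝ) := by
  have h1 : (Qs S H (σ * 2 ^ n)).card ≤ ∑ x ∈ S ×ˢ S,
      (coinSet σ H (Real.log x.1) (Real.log x.2)).card := by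
    rw [Finset.card_eq_sum_card_fiberwise (f := fun x => (x.1.2, x.2.2)) (t := S ×ˢ S)]
    · refine Finset.sum_le_sum ?_
      rintro ⟨s, t⟩ hst
      refine Finset.card_le_card_of_injOn (fun x => (x.1.1, x.2.1)) ?_ ?_
      · rintro ⟨⟨a, s'⟩, ⟨b, t'⟩⟩ hx
        rw [Finset.mem_coe, Finset.mem_filter, Qs, Finset.mem_filter, Finset.mem_product,
          Finset.mem_product, Finset.mem_product, Finset.mem_Icc, Finset.mem_Icc] at hx
        simp only [Prod.mk.injEq] at hx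
        obtain ⟨⟨⟨⟨⟨h1, h2⟩, h3⟩, ⟨h4, h5⟩, h6⟩, h7⟩, rfl, rfl⟩ := hx
        rw [Finset.mem_coe, coinSet, Finset.mem_filter, Finset.mem_product, Finset.mem_Icc,
          Finset.mem_Icc]
        refine ⟨⟨⟨h1, h2⟩, h4, h5⟩, ?_⟩
        simp only
        have p0 : (0 : ℝ) < 2 ^ n := by positivity
        have ha : (1 : ℝ) ≤ a := by exact_mod_cast h1
        have hb : (1 : ℝ) ≤ b := by exact_mod_cast h4
        have hs := hlo _ h3
        have ht := hlo _ h6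
        have h8 := log_close (a := a * s') (b := b * t') p0 (by nlinarith) (by nlinarith) hσ h7
        rw [Real.log_mul (by positivity) (by linarith), Real.log_mul (by positivity) (by linarith)]
          at h8
        rw [show Real.log (a : ℝ) + Real.log s' - Real.log (b : ℝ) - Real.log t' =
          Real.log (a : ℝ) + Real.log s' - (Real.log (b : ℝ) + Real.log t') by ring]
        exact h8
      · rintro ⟨⟨a, s'⟩, ⟨b, t'⟩⟩ hx ⟨⟨c, s''⟩, ⟨d, t''⟩⟩ hy hxy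
        rw [Finset.mem_coe, Finset.mem_filter] at hx hy
        simp only [Prod.mk.injEq] at hx hy hxy ⊢
        obtain ⟨-, rfl, rfl⟩ := hx
        obtain ⟨-, rfl, rfl⟩ := hy
        exact ⟨⟨hxy.1, rfl⟩, hxy.2, rfl⟩
    · rintro ⟨⟨a, s'⟩, ⟨b, t'⟩⟩ hx
      rw [Finset.mem_coe, Qs, Finset.mem_filter, Finset.mem_product,
          Finset.mem_product, Finset.mem_product] at hx
      rw [Finset.mem_coe, Finset.mem_product]
      exact ⟨hx.1.1.2, hx.1.2.2⟩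
  have h2 : ∑ i : S, ∑ j : S, ((coinSet σ H (Real.log (i : ℝ)) (Real.log (j : ℝ))).card : ℝ) =
      ∑ x ∈ S ×ˢ S, ((coinSet σ H (Real.log x.1) (Real.log x.2)).card : ℝ) := by
    rw [Finset.sum_product]
    have inner : ∀ i : ℝ, ∑ j : S, ((coinSet σ H (Real.log i) (Real.log (j : ℝ))).card : ℝ) =
        ∑ t ∈ S, ((coinSet σ H (Real.log i) (Real.log t)).card : ℝ) := fun i =>
      Finset.sum_coe_sort S (fun t => ((coinSet σ H (Real.log i) (Real.log t)).card : ℝ))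
    simp only [inner]
    exact Finset.sum_coe_sort S
      (fun s => ∑ t ∈ S, ((coinSet σ H (Real.log s) (Real.log t)).card : ℝ))
  rw [h2]
  exact_mod_cast h1

theorem hs_two_pow (h : ℕ) : hs (2 ^ h) ≤ 1 + h := by
  have h1 := harmonic_le_one_add_log (2 ^ h)
  rw [harmonic_eq_sum_Icc] at h1
  push_cast at h1
  rw [hs]
  simp only [one_div]
  refine h1.trans ?_
  rw [Real.log_pow]
  have h2 : Real.log 2 ≤ 1 := by
    have := Real.log_le_sub_one_of_pos (show (0 : ℝ) < 2 by norm_num)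
    linarith
  have h3 : (0 : ℝ) ≤ h := by positivity
  nlinarith

theorem log_sep_level {lam n : ℕ} {S : Finset ℝ} (hS : LevelSet lam n S) {s t : ℝ}
    (hs : s ∈ S) (ht : t ∈ S) (hne : s ≠ t) :
    1 / (2 : ℝ) ^ (lam + 1) ≤ |Real.log s - Real.log t| := by
  wlog hlt : s < t generalizing s t with Hw
  · rw [abs_sub_comm]
    exact Hw ht hs hne.symm (lt_of_le_of_ne (not_lt.1 hlt) hne.symm)
  have h0 : (0 : ℝ) < 2 ^ n := by positivity
  have hs0 : 0 < s := h0.trans_le (hS.lo s hs)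
  have ht0 : 0 < t := h0.trans_le (hS.lo t ht)
  have h1 := hS.sep s hs t ht hlt
  have hl : (1 : ℝ) ≤ 2 ^ lam := one_le_pow₀ (by norm_num)
  have h2 := Real.one_sub_inv_le_log_of_pos (show 0 < t / s by positivity)
  rw [Real.log_div ht0.ne' hs0.ne', inv_div] at h2
  have h3 : s / t ≤ 1 - 1 / 2 ^ (lam + 1) := by
    rw [div_le_iff₀ ht0]
    have h4 : (1 : ℝ) ≤ (1 - 1 / 2 ^ (lam + 1)) * (1 + 1 / 2 ^ lam) := by
      rw [pow_succ]
      have h5 : (0 : ℝ) < 1 / 2 ^ lam := by positivity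
      have h6 : (1 : ℝ) / 2 ^ lam ≤ 1 := by rw [div_le_one (by positivity)]; exact hl
      rw [show (1 : ℝ) / (2 ^ lam * 2) = (1 / 2 ^ lam) / 2 by field_simp]
      nlinarith
    have h7 : 0 ≤ 1 - 1 / (2 : ℝ) ^ (lam + 1) := by
      have : (1 : ℝ) / 2 ^ (lam + 1) ≤ 1 := by
        rw [div_le_one (by positivity)]; exact one_le_pow₀ (by norm_num)
      linarith
    calc s = 1 * s := (one_mul s).symm
      _ ≤ ((1 - 1 / 2 ^ (lam + 1)) * (1 + 1 / 2 ^ lam)) * s :=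
          mul_le_mul_of_nonneg_right h4 hs0.le
      _ = (1 - 1 / 2 ^ (lam + 1)) * ((1 + 1 / 2 ^ lam) * s) := by ring
      _ ≤ _ := mul_le_mul_of_nonneg_left h1 h7
  rw [abs_sub_comm]
  exact le_trans (by linarith) (le_abs_self _)

/-- The energy estimate in powers of two. -/
theorem Qs_bound (lam n κ h : ℕ) (S : Finset ℝ) (hS : LevelSet lam n S)
    (hκ : lam < 8 ^ (κ + 1)) (hlam : 1 ≤ lam) (hh : h ≤ lam) :
    ((Qs S (2 ^ h) (1 / 2 ^ (2 * 2 ^ κ * lam + κ + 2) * 2 ^ n)).card : ℝ) ≤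
      2 ^ (lam + h + 11 * (2 ^ κ) ^ 2) := by
  set k := 2 ^ κ with hk
  have hk1 : 1 ≤ k := Nat.one_le_two_pow
  set σ : ℝ := 1 / 2 ^ (2 * k * lam + κ + 2) with hσ
  have hσ0 : 0 < σ := by positivity
  have h1 := Qs_card_le S (2 ^ h) n σ hσ0.le hS.lo
  set u := ∑ i : S, ∑ j : S,
    ((coinSet σ (2 ^ h) (Real.log (i : ℝ)) (Real.log (j : ℝ))).card : ℝ) with hu
  have hu0 : 0 ≤ u := Finset.sum_nonneg fun _ _ => Finset.sum_nonneg fun _ _ => by positivity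
  have hsep : ∀ i j : S, i ≠ j → 2 * σ < |Real.log (i : ℝ) - Real.log (j : ℝ)| := by
    intro i j hij
    have h2 := log_sep_level hS i.2 j.2 (fun h => hij (Subtype.ext h))
    refine lt_of_lt_of_le ?_ h2
    rw [hσ, ← div_eq_mul_one_div, div_lt_div_iff₀ (by positivity) (by positivity), one_mul,
      ← pow_succ']
    refine pow_lt_pow_right₀ (by norm_num) ?_
    nlinarith
  have hH : 1 ≤ 2 ^ h := Nat.one_le_two_pow
  have hσ2 : 2 * (((2 ^ κ : ℕ) : ℝ) * σ) * (((2 ^ h : ℕ) : ℝ)) ^ (2 * 2 ^ κ) < 1 := by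
    rw [← hk, hσ]
    have e1 : (2 : ℝ) * (((k : ℕ) : ℝ) * (1 / 2 ^ (2 * k * lam + κ + 2))) *
        (((2 ^ h : ℕ) : ℝ)) ^ (2 * k) = 2 ^ (1 + κ + h * (2 * k)) / 2 ^ (2 * k * lam + κ + 2) := by
      rw [hk]
      push_cast
      rw [pow_add 2 (1 + κ) (h * (2 * 2 ^ κ)), pow_add 2 1 κ, pow_one, pow_mul 2 h]
      ring
    rw [e1, div_lt_one (by positivity)]
    refine pow_lt_pow_right₀ (by norm_num) ?_
    have : h * (2 * k) ≤ lam * (2 * k) := Nat.mul_le_mul_right _ hh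
    nlinarith
  have h2 := energy (fun i : S => Real.log (i : ℝ)) σ (2 ^ h) κ hsep hσ2 hH
  rw [← hk, ← hu, Fintype.card_coe] at h2
  refine h1.trans ?_
  refine le_of_pow_le_pow_left₀ (n := k) (by omega) (by positivity) (h2.trans ?_)
  have c1 : (S.card : ℝ) ≤ 2 ^ lam := by exact_mod_cast hS.card
  have c2 : hs (2 ^ h) ≤ 2 ^ (3 * κ + 3) := by
    refine (hs_two_pow h).trans ?_
    have h3 : 1 + h ≤ 2 ^ (3 * κ + 3) := by
      calc 1 + h ≤ 1 + lam := by omega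
        _ ≤ 8 ^ (κ + 1) := by omega
        _ = 2 ^ (3 * κ + 3) := by
            rw [show (8 : ℕ) = 2 ^ 3 by norm_num, ← pow_mul]; congr 1
    exact_mod_cast h3
  calc (S.card : ℝ) ^ (k + 1) * (((2 ^ h : ℕ) : ℝ) ^ k * hs (2 ^ h) ^ (k * k))
      ≤ (2 ^ lam) ^ (k + 1) * ((2 ^ h) ^ k * (2 ^ (3 * κ + 3)) ^ (k * k)) := by
        push_cast
        refine mul_le_mul (pow_le_pow_left₀ (by positivity) c1 _) ?_
          (mul_nonneg (by positivity) (pow_nonneg (hs_nonneg _) _)) (by positivity)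
        exact mul_le_mul_of_nonneg_left (pow_le_pow_left₀ (hs_nonneg _) c2 _) (by positivity)
    _ = 2 ^ (lam * (k + 1) + (h * k + (3 * κ + 3) * (k * k))) := by
        rw [← pow_mul, ← pow_mul, ← pow_mul, ← pow_add, ← pow_add]
    _ ≤ 2 ^ ((lam + h + 11 * k ^ 2) * k) := by
        refine pow_le_pow_right₀ (by norm_num) ?_
        have a1 : lam ≤ 8 * k ^ 3 := by
          have : (8 : ℕ) ^ (κ + 1) = 8 * k ^ 3 := by
            rw [hk, pow_succ, ← pow_mul, mul_comm κ 3, pow_mul]; ring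
          omega
        have a2 : κ + 1 ≤ k := Nat.lt_two_pow_self
        have a3 : (3 * κ + 3) * (k * k) ≤ 3 * k * (k * k) := Nat.mul_le_mul_right _ (by omega)
        nlinarith
    _ = (2 ^ (lam + h + 11 * k ^ 2)) ^ k := by rw [pow_mul]

/-- Few abnormal intervals. -/
theorem few_abnormal (lam κ h r q s : ℕ) (S : Finset ℝ) (hS : LevelSet lam (s + q + r) S)
    (hκ : lam < 8 ^ (κ + 1)) (hlam : 1 ≤ lam) (hh : h ≤ lam)
    (hq : 3 * h + 2 * lam + 2 * 2 ^ κ * lam + κ + 6 ≤ q + lam + h + 11 * (2 ^ κ) ^ 2) (I : ℕ) :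
    (((Finset.Ico (I * 2 ^ q) ((I + 1) * 2 ^ q)).filter (fun J : ℕ =>
      (2 : ℝ) ^ lam / 2 ^ h < ‖Rs S (2 ^ h) ((J : ℝ) / 2 ^ (s + q + (h + r + 5)))‖)).card : ℝ) *
      2 ^ lam ≤ 2 ^ (q + h + 3 + 11 * (2 ^ κ) ^ 2) := by
  set k := 2 ^ κ with hk
  set w := h + r + 5 with hw
  set σ : ℝ := 1 / 2 ^ (2 * k * lam + κ + 2) with hσ
  set Δ : ℝ := 1 / 2 ^ (s + q + w) with hΔ
  set n := s + q + r with hn
  have hΔ0 : 0 < Δ := by positivity
  have hτ0 : 0 < σ * 2 ^ n := by positivity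
  have hHr : (((2 ^ h : ℕ) : ℝ)) = 2 ^ h := by push_cast; rfl
  have hms := mean_sq (Finset.Icc 1 (2 ^ h) ×ˢ S) (fun p : ℕ × ℝ => (p.1 : ℝ) * p.2)
    (fun p : ℕ × ℝ => 2 * (((2 ^ h : ℕ) : ℝ) - p.1) / ((2 ^ h : ℕ) : ℝ) ^ 2) (2 / 2 ^ h) (by
      rintro ⟨d, t⟩ hp
      rw [Finset.mem_product, Finset.mem_Icc] at hp
      have h1 : (d : ℝ) ≤ ((2 ^ h : ℕ) : ℝ) := by exact_mod_cast hp.1.2
      have h2 : (0 : ℝ) ≤ d := by positivity
      rw [hHr] at h1 ⊢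
      simp only
      constructor
      · apply div_nonneg _ (by positivity)
        linarith
      · rw [div_le_div_iff₀ (by positivity) (by positivity)]
        have h3 : (0 : ℝ) < 2 ^ h := by positivity
        nlinarith) ((I * 2 ^ q : ℕ) * Δ) Δ (σ * 2 ^ n) hΔ0 hτ0 (by
      rintro ⟨d, t⟩ hp ⟨d', t'⟩ hp'
      rw [Finset.mem_product, Finset.mem_Icc] at hp hp'
      simp only at hp hp' ⊢
      have h1 : (d : ℝ) ≤ 2 ^ h := by exact_mod_cast hp.1.2
      have h2 : (d' : ℝ) ≤ 2 ^ h := by exact_mod_cast hp'.1.2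
      have h3 : (0 : ℝ) ≤ d := by positivity
      have h4 : (0 : ℝ) ≤ d' := by positivity
      have h5 : 0 ≤ t := le_trans (by positivity) (hS.lo t hp.2)
      have h6 : 0 ≤ t' := le_trans (by positivity) (hS.lo t' hp'.2)
      have h7 : (d : ℝ) * t ≤ 2 ^ h * 2 ^ (n + 1) :=
        mul_le_mul h1 (hS.hi t hp.2).le h5 (by positivity)
      have h8 : (d' : ℝ) * t' ≤ 2 ^ h * 2 ^ (n + 1) :=
        mul_le_mul h2 (hS.hi t' hp'.2).le h6 (by positivity)
      have h9 : 0 ≤ (d : ℝ) * t := by positivity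
      have h10 : 0 ≤ (d' : ℝ) * t' := by positivity
      have h11 : |(d : ℝ) * t - d' * t'| ≤ 2 ^ h * 2 ^ (n + 1) :=
        abs_le.2 ⟨by linarith, by linarith⟩
      calc |(d : ℝ) * t - d' * t'| * Δ ≤ (2 ^ h * 2 ^ (n + 1)) * Δ :=
            mul_le_mul_of_nonneg_right h11 hΔ0.le
        _ = 1 / 16 := by
            rw [hΔ, mul_one_div, ← pow_add, div_eq_div_iff (by positivity) (by norm_num),
              one_mul, show (16 : ℝ) = 2 ^ 4 by norm_num, ← pow_add]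
            congr 1
            omega
        _ ≤ 1 / 2 := by norm_num) (2 ^ q)
  have hQ := Qs_bound lam n κ h S hS hκ hlam hh
  rw [← hk, ← hσ] at hQ
  have hfil : (((Finset.Icc 1 (2 ^ h) ×ˢ S) ×ˢ (Finset.Icc 1 (2 ^ h) ×ˢ S)).filter
    (fun x : (ℕ × ℝ) × (ℕ × ℝ) => |(x.1.1 : ℝ) * x.1.2 - (x.2.1 : ℝ) * x.2.2| < σ * 2 ^ n)) =
      Qs S (2 ^ h) (σ * 2 ^ n) := rfl
  rw [hfil] at hms
  have hcardP : ((Finset.Icc 1 (2 ^ h) ×ˢ S).card : ℝ) ≤ 2 ^ h * 2 ^ lam := by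
    rw [Finset.card_product, Nat.card_Icc]
    have : S.card ≤ 2 ^ lam := hS.card
    have h3 : (2 ^ h + 1 - 1) * S.card ≤ 2 ^ h * 2 ^ lam := by
      rw [Nat.add_sub_cancel]; exact Nat.mul_le_mul_left _ this
    exact_mod_cast h3
  -- right hand side
  have hrhs : (2 / (2 : ℝ) ^ h) ^ 2 * (((2 ^ q : ℕ) : ℝ) * ((Qs S (2 ^ h) (σ * 2 ^ n)).card : ℝ) +
      ((Finset.Icc 1 (2 ^ h) ×ˢ S).card : ℝ) ^ 2 / (2 * (σ * 2 ^ n * Δ))) ≤
      (2 / (2 : ℝ) ^ h) ^ 2 * (2 * 2 ^ (q + lam + h + 11 * k ^ 2)) := by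
    refine mul_le_mul_of_nonneg_left ?_ (by positivity)
    have g1 : ((2 ^ q : ℕ) : ℝ) * ((Qs S (2 ^ h) (σ * 2 ^ n)).card : ℝ) ≤
        2 ^ (q + lam + h + 11 * k ^ 2) := by
      push_cast
      rw [show q + lam + h + 11 * k ^ 2 = q + (lam + h + 11 * k ^ 2) by ring, pow_add 2 q]
      exact mul_le_mul_of_nonneg_left hQ (by positivity)
    have g2 : ((Finset.Icc 1 (2 ^ h) ×ˢ S).card : ℝ) ^ 2 / (2 * (σ * 2 ^ n * Δ)) ≤
        2 ^ (q + lam + h + 11 * k ^ 2) := by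
      have e1 : 2 * (σ * 2 ^ n * Δ) = 1 / 2 ^ (2 * k * lam + κ + 1 + h + 5) := by
        rw [hσ, hΔ]
        rw [show (1 : ℝ) / 2 ^ (2 * k * lam + κ + 2) * 2 ^ n * (1 / 2 ^ (s + q + w)) =
          2 ^ n / (2 ^ (2 * k * lam + κ + 2) * 2 ^ (s + q + w)) by field_simp]
        rw [← mul_div_assoc, ← pow_succ', ← pow_add,
          div_eq_div_iff (by positivity) (by positivity), one_mul, ← pow_add]
        congr 1
        omega
      rw [e1, div_div_eq_mul_div, div_one]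
      calc ((Finset.Icc 1 (2 ^ h) ×ˢ S).card : ℝ) ^ 2 * 2 ^ (2 * k * lam + κ + 1 + h + 5)
          ≤ (2 ^ h * 2 ^ lam) ^ 2 * 2 ^ (2 * k * lam + κ + 1 + h + 5) :=
            mul_le_mul_of_nonneg_right (pow_le_pow_left₀ (by positivity) hcardP 2) (by positivity)
        _ = 2 ^ ((h + lam) * 2 + (2 * k * lam + κ + 1 + h + 5)) := by
            rw [← pow_add, ← pow_mul, ← pow_add]
        _ ≤ _ := pow_le_pow_right₀ (by norm_num) (by linarith)
    linarith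
  have htot := hms.trans hrhs
  -- left hand side: Chebyshev
  have hsum : ∑ J ∈ Finset.Ico (I * 2 ^ q) ((I + 1) * 2 ^ q),
      ‖Rs S (2 ^ h) ((J : ℝ) / 2 ^ (s + q + w))‖ ^ 2 ≤
      (2 / (2 : ℝ) ^ h) ^ 2 * (2 * 2 ^ (q + lam + h + 11 * k ^ 2)) := by
    refine le_trans (le_of_eq ?_) htot
    rw [Finset.sum_Ico_eq_sum_range, add_mul, one_mul, Nat.add_sub_cancel_left]
    refine Finset.sum_congr rfl fun j _ => ?_
    rw [Rs]
    congr 2
    refine Finset.sum_congr rfl fun p _ => ?_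
    congr 2
    rw [hΔ]
    push_cast
    ring
  have hcheb : (((Finset.Ico (I * 2 ^ q) ((I + 1) * 2 ^ q)).filter (fun J : ℕ =>
      (2 : ℝ) ^ lam / 2 ^ h < ‖Rs S (2 ^ h) ((J : ℝ) / 2 ^ (s + q + w))‖)).card : ℝ) *
      ((2 : ℝ) ^ lam / 2 ^ h) ^ 2 ≤ ∑ J ∈ Finset.Ico (I * 2 ^ q) ((I + 1) * 2 ^ q),
      ‖Rs S (2 ^ h) ((J : ℝ) / 2 ^ (s + q + w))‖ ^ 2 := by
    rw [← nsmul_eq_mul, ← Finset.sum_const]
    refine le_trans (Finset.sum_le_sum (fun J hJ => ?_))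
      (Finset.sum_le_sum_of_subset_of_nonneg (Finset.filter_subset _ _)
        (fun _ _ _ => by positivity))
    exact pow_le_pow_left₀ (by positivity) (Finset.mem_filter.1 hJ).2.le 2
  have hfin := hcheb.trans hsum
  set A := (((Finset.Ico (I * 2 ^ q) ((I + 1) * 2 ^ q)).filter (fun J : ℕ =>
      (2 : ℝ) ^ lam / 2 ^ h < ‖Rs S (2 ^ h) ((J : ℝ) / 2 ^ (s + q + w))‖)).card : ℝ)
  have e2 : A * ((2 : ℝ) ^ lam / 2 ^ h) ^ 2 = (A * 2 ^ lam) * (2 ^ lam / (2 ^ h) ^ 2) := by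
    ring
  have e3 : (2 / (2 : ℝ) ^ h) ^ 2 * (2 * 2 ^ (q + lam + h + 11 * k ^ 2)) =
      2 ^ (q + h + 3 + 11 * k ^ 2) * (2 ^ lam / (2 ^ h) ^ 2) := by
    rw [show q + lam + h + 11 * k ^ 2 = (q + h + 11 * k ^ 2) + lam by ring,
      show q + h + 3 + 11 * k ^ 2 = (q + h + 11 * k ^ 2) + 3 by ring, pow_add 2 _ lam,
      pow_add 2 _ 3]
    ring
  rw [e2, e3] at hfin
  exact le_of_mul_le_mul_right hfin (by positivity)

end Pool.Agent.W_MP_0d5018_nt
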