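import Mathlib

/-!
Counting solutions of `m_1 ... m_k = m'_1 ... m'_l` in a box.
-/

namespace Pool.Agent.W_MP_0d5018_nt

/-- Lists of length `k` with entries in `[1, H]`. -/
def tup (H : ℕ) : ℕ → Finset (List ℕ)
  | 0 => {[]}
  | k + 1 => ((Finset.Icc 1 H) ×ˢ tup H k).image (fun x => x.1 :: x.2)

theorem mem_tup {H k : ℕ} {l : List ℕ} :
    l ∈ tup H k ↔ l.length = k ∧ ∀ x ∈ l, 1 ≤ x ∧ x ≤ H := by
  induction k generalizing l with
  | zero =>
    rw [tup, Finset.mem_singleton]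
    constructor
    · rintro rfl; simp
    · rintro ⟨h, -⟩; exact List.length_eq_zero_iff.1 h
  | succ k ih =>
    rw [tup, Finset.mem_image]
    constructor
    · rintro ⟨⟨d, l'⟩, hx, rfl⟩
      rw [Finset.mem_product, Finset.mem_Icc] at hx
      obtain ⟨h1, h2⟩ := ih.1 hx.2
      refine ⟨by rw [List.length_cons, h1], ?_⟩
      intro x hx'
      rcases List.mem_cons.1 hx' with rfl | hx'
      · exact hx.1
      · exact h2 x hx'
    · rintro ⟨h1, h2⟩
      cases l with
      | nil => simp at h1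
      | cons d l' =>
        refine ⟨(d, l'), ?_, rfl⟩
        rw [Finset.mem_product, Finset.mem_Icc]
        refine ⟨h2 d (List.mem_cons_self), ih.2 ⟨by simpa using h1, ?_⟩⟩
        intro x hx
        exact h2 x (List.mem_cons_of_mem _ hx)

theorem sum_tup_succ {M : Type*} [AddCommMonoid M] (H k : ℕ) (f : List ℕ → M) :
    ∑ l ∈ tup H (k + 1), f l = ∑ m ∈ Finset.Icc 1 H, ∑ l ∈ tup H k, f (m :: l) := by
  rw [tup, Finset.sum_image (by
    rintro ⟨d, l⟩ _ ⟨d', l'⟩ _ h
    simp only [List.cons.injEq] at h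
    rw [h.1, h.2]), Finset.sum_product]

theorem prod_pos_of_mem_tup {H k : ℕ} {l : List ℕ} (h : l ∈ tup H k) : 1 ≤ l.prod := by
  obtain ⟨-, h2⟩ := mem_tup.1 h
  exact Nat.one_le_iff_ne_zero.2 (List.prod_ne_zero (fun h0 => by simpa using (h2 0 h0).1))

theorem prod_le_of_mem_tup {H k : ℕ} {l : List ℕ} (h : l ∈ tup H k) : l.prod ≤ H ^ k := by
  induction k generalizing l with
  | zero =>
    rw [tup, Finset.mem_singleton] at h
    subst h; simp
  | succ k ih =>
    obtain ⟨h1, h2⟩ := mem_tup.1 h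
    cases l with
    | nil => simp at h1
    | cons d l' =>
      have hl' : l' ∈ tup H k := mem_tup.2 ⟨by simpa using h1, fun x hx =>
        h2 x (List.mem_cons_of_mem _ hx)⟩
      rw [List.prod_cons, pow_succ, mul_comm]
      exact Nat.mul_le_mul (ih hl') (h2 d (List.mem_cons_self)).2

/-- Harmonic sum. -/
noncomputable def hs (H : ℕ) : ℝ := ∑ g ∈ Finset.Icc 1 H, (1 : ℝ) / g

theorem hs_nonneg (H : ℕ) : 0 ≤ hs H := Finset.sum_nonneg fun _ _ => by positivity

theorem sum_inv_prod (H k : ℕ) : ∑ l ∈ tup H k, (1 : ℝ) / (l.prod : ℝ) = hs H ^ k := by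
  induction k with
  | zero => simp [tup]
  | succ k ih =>
    rw [sum_tup_succ, pow_succ, mul_comm, hs, Finset.sum_mul]
    refine Finset.sum_congr rfl fun m _ => ?_
    rw [← hs, ← ih, Finset.mul_sum]
    refine Finset.sum_congr rfl fun l _ => ?_
    rw [List.prod_cons, Nat.cast_mul]
    rw [one_div_mul_one_div]

theorem decomp {H : ℕ} (m : List ℕ) (hm : ∀ x ∈ m, 1 ≤ x ∧ x ≤ H) (μ : ℕ) (hμ : μ ∣ m.prod) :
    ∃ g n : List ℕ, g.length = m.length ∧ n.length = m.length ∧
      m = List.zipWith (fun a b => a * b) g n ∧ g.prod = μ ∧ m.prod = g.prod * n.prod ∧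
      (∀ x ∈ g, 1 ≤ x ∧ x ≤ H) ∧ (∀ x ∈ n, 1 ≤ x ∧ x ≤ H) := by
  induction m generalizing μ with
  | nil =>
    refine ⟨[], [], rfl, rfl, rfl, ?_, by simp, by simp, by simp⟩
    have : μ = 1 := by simpa using hμ
    rw [this]; simp
  | cons a m ih =>
    rw [List.prod_cons] at hμ
    obtain ⟨d1, d2, h1, h2, h3⟩ := exists_dvd_and_dvd_of_dvd_mul hμ
    obtain ⟨g, n, e1, e2, e3, e4, e5, e6, e7⟩ := ih (fun x hx => hm x (List.mem_cons_of_mem _ hx))
      d2 h2
    obtain ⟨c, hc⟩ := h1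
    have ha := hm a (List.mem_cons_self)
    have hd1 : 1 ≤ d1 := by
      rcases Nat.eq_zero_or_pos d1 with h | h
      · subst h; omega
      · exact h
    have hc1 : 1 ≤ c := by
      rcases Nat.eq_zero_or_pos c with h | h
      · subst h; omega
      · exact h
    refine ⟨d1 :: g, c :: n, by simp [e1], by simp [e2], ?_, ?_, ?_, ?_, ?_⟩
    · rw [List.zipWith_cons_cons, ← e3, hc]
    · rw [List.prod_cons, e4, h3]
    · rw [List.prod_cons, List.prod_cons, List.prod_cons, e5, hc]; ring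
    · intro x hx
      rcases List.mem_cons.1 hx with rfl | hx
      · exact ⟨hd1, le_trans (by rw [hc]; exact Nat.le_mul_of_pos_right _ hc1) ha.2⟩
      · exact e6 x hx
    · intro x hx
      rcases List.mem_cons.1 hx with rfl | hx
      · exact ⟨hc1, le_trans (by rw [hc]; exact Nat.le_mul_of_pos_left _ hd1) ha.2⟩
      · exact e7 x hx

theorem sum_le_of_inj {ι κ : Type*} [DecidableEq κ] (s : Finset ι) (t : Finset κ) (f : ι → ℝ)
    (g : κ → ℝ) (hg : ∀ k ∈ t, 0 ≤ g k) (e : ι → κ) (he : ∀ i ∈ s, e i ∈ t)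
    (hinj : Set.InjOn e s) (hfg : ∀ i ∈ s, f i = g (e i)) : ∑ i ∈ s, f i ≤ ∑ k ∈ t, g k := by
  rw [Finset.sum_congr rfl hfg, ← Finset.sum_image (f := g) (g := e) hinj]
  refine Finset.sum_le_sum_of_subset_of_nonneg ?_ (fun k hk _ => hg k hk)
  intro k hk
  rw [Finset.mem_image] at hk
  obtain ⟨i, hi, rfl⟩ := hk
  exact he i hi

/-- Pairs of tuples with equal products. -/
def eqp (H k l : ℕ) : Finset (List ℕ × List ℕ) :=
  (tup H k ×ˢ tup H l).filter (fun x => x.1.prod = x.2.prod)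

theorem prod_one_eq {l : List ℕ} (h : l.prod = 1) : l = List.replicate l.length 1 := by
  induction l with
  | nil => rfl
  | cons a l ih =>
    rw [List.prod_cons] at h
    obtain ⟨h1, h2⟩ := mul_eq_one.1 h
    rw [List.length_cons, List.replicate_succ, h1, ← ih h2]

theorem eqp_weight (H k l : ℕ) :
    ∑ x ∈ eqp H k l, (1 : ℝ) / (x.2.prod : ℝ) ≤ hs H ^ (k * l) := by
  induction k with
  | zero =>
    rw [zero_mul, pow_zero]
    have hsub : eqp H 0 l ⊆ {([], List.replicate l 1)} := by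
      rintro ⟨a, b⟩ hx
      rw [eqp, Finset.mem_filter, Finset.mem_product] at hx
      obtain ⟨⟨h1, h2⟩, h3⟩ := hx
      rw [tup, Finset.mem_singleton] at h1
      simp only at h1 h2 h3
      subst h1
      have h4 : b.prod = 1 := by rw [← h3]; rfl
      have h5 := prod_one_eq h4
      rw [(mem_tup.1 h2).1] at h5
      rw [Finset.mem_singleton, h5]
    calc ∑ x ∈ eqp H 0 l, (1 : ℝ) / (x.2.prod : ℝ)
        ≤ ∑ x ∈ ({([], List.replicate l 1)} : Finset (List ℕ × List ℕ)),
            (1 : ℝ) / (x.2.prod : ℝ) :=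
          Finset.sum_le_sum_of_subset_of_nonneg hsub (fun _ _ _ => by positivity)
      _ = 1 := by simp
  | succ k ih =>
    have hex : ∀ x : List ℕ × List ℕ, ∃ y : List ℕ × (List ℕ × List ℕ), x ∈ eqp H (k + 1) l →
        y ∈ tup H l ×ˢ eqp H k l ∧ x = (y.1.prod :: y.2.1,
          List.zipWith (fun a b => a * b) y.1 y.2.2) ∧
          x.2.prod = y.1.prod * y.2.2.prod := by
      rintro ⟨a, b⟩
      by_cases hx : (a, b) ∈ eqp H (k + 1) l
      · have hx' := hx
        rw [eqp, Finset.mem_filter, Finset.mem_product] at hx'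
        obtain ⟨⟨h1, h2⟩, h3⟩ := hx'
        simp only at h1 h2 h3
        obtain ⟨l1, l2⟩ := mem_tup.1 h1
        obtain ⟨l3, l4⟩ := mem_tup.1 h2
        cases a with
        | nil => simp at l1
        | cons μ m =>
          rw [List.prod_cons] at h3
          obtain ⟨g, n, e1, e2, e3, e4, e5, e6, e7⟩ := decomp b l4 μ ⟨m.prod, h3.symm⟩
          refine ⟨(g, (m, n)), fun _ => ⟨?_, ?_, ?_⟩⟩
          · rw [Finset.mem_product, eqp, Finset.mem_filter, Finset.mem_product]
            refine ⟨mem_tup.2 ⟨e1.trans l3, e6⟩, ⟨mem_tup.2 ⟨by simpa using l1, fun x hx =>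
              l2 x (List.mem_cons_of_mem _ hx)⟩, mem_tup.2 ⟨e2.trans l3, e7⟩⟩, ?_⟩
            simp only
            have hμ : 0 < μ := (l2 μ (List.mem_cons_self)).1
            rw [e5, e4] at h3
            exact Nat.eq_of_mul_eq_mul_left hμ h3
          · simp only [e4, ← e3]
          · exact e5
      · exact ⟨([], ([], [])), fun h => absurd h hx⟩
    choose e he using hex
    have h1 : ∑ x ∈ eqp H (k + 1) l, (1 : ℝ) / (x.2.prod : ℝ) ≤
        ∑ y ∈ tup H l ×ˢ eqp H k l, (1 : ℝ) / (y.1.prod : ℝ) * (1 / (y.2.2.prod : ℝ)) := by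
      refine sum_le_of_inj _ _ _ _ (fun _ _ => by positivity) e (fun i hi => (he i hi).1) ?_ ?_
      · intro x hx x' hx' hee
        rw [(he x hx).2.1, (he x' hx').2.1, hee]
      · intro x hx
        rw [(he x hx).2.2, Nat.cast_mul, one_div_mul_one_div]
    refine h1.trans ?_
    rw [Finset.sum_product]
    have h2 : ∑ g ∈ tup H l, ∑ y ∈ eqp H k l, (1 : ℝ) / (g.prod : ℝ) * (1 / (y.2.prod : ℝ)) =
        (∑ g ∈ tup H l, (1 : ℝ) / (g.prod : ℝ)) * ∑ y ∈ eqp H k l, 1 / (y.2.prod : ℝ) := by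
      rw [Finset.sum_mul_sum]
    simp only at h2 ⊢
    rw [h2, sum_inv_prod, Nat.succ_mul, pow_add, mul_comm]
    exact mul_le_mul_of_nonneg_right ih (pow_nonneg (hs_nonneg H) _)

theorem card_eqp_le (H k : ℕ) :
    ((eqp H k k).card : ℝ) ≤ (H : ℝ) ^ k * hs H ^ (k * k) := by
  have h1 := eqp_weight H k k
  have h2 : ((eqp H k k).card : ℝ) ≤ (H : ℝ) ^ k * ∑ x ∈ eqp H k k, (1 : ℝ) / (x.2.prod : ℝ) := by
    rw [Finset.card_eq_sum_ones, Nat.cast_sum, Finset.mul_sum]
    refine Finset.sum_le_sum fun x hx => ?_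
    rw [eqp, Finset.mem_filter, Finset.mem_product] at hx
    have h3 := prod_le_of_mem_tup hx.1.2
    have h4 := prod_pos_of_mem_tup hx.1.2
    have h5 : (0 : ℝ) < (x.2.prod : ℝ) := by exact_mod_cast h4
    have h6 : (x.2.prod : ℝ) ≤ (H : ℝ) ^ k := by exact_mod_cast h3
    rw [Nat.cast_one, mul_one_div, le_div_iff₀ h5, one_mul]
    exact h6
  exact h2.trans (mul_le_mul_of_nonneg_left h1 (by positivity))

/-- Pairs of tuples with products in a fixed ratio. -/
theorem card_ratio_le (H k a b : ℕ) (ha : 1 ≤ a) (hb : 1 ≤ b) :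
    ((tup H k ×ˢ tup H k).filter (fun x => b * x.1.prod = a * x.2.prod)).card ≤
      (eqp H k k).card := by
  classical
  set P := (tup H k ×ˢ tup H k).filter (fun x => b * x.1.prod = a * x.2.prod) with hP
  set V := (tup H k).image (fun m => b * m.prod) ∪ (tup H k).image (fun m => a * m.prod) with hV
  have c1 : P.card = ∑ N ∈ V, ((tup H k).filter (fun m => b * m.prod = N)).card *
      ((tup H k).filter (fun m => a * m.prod = N)).card := by
    rw [Finset.card_eq_sum_card_fiberwise (f := fun x => b * x.1.prod) (t := V)]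
    · refine Finset.sum_congr rfl fun N _ => ?_
      rw [← Finset.card_product]
      congr 1
      ext ⟨x, y⟩
      simp only [hP, Finset.mem_filter, Finset.mem_product]
      constructor
      · rintro ⟨⟨⟨h1, h2⟩, h3⟩, h4⟩
        exact ⟨⟨h1, h4⟩, ⟨h2, h3 ▸ h4⟩⟩
      · rintro ⟨⟨h1, h2⟩, ⟨h3, h4⟩⟩
        exact ⟨⟨⟨h1, h3⟩, h2.trans h4.symm⟩, h2⟩
    · intro x hx
      rw [Finset.mem_coe, hP, Finset.mem_filter, Finset.mem_product] at hx
      rw [Finset.mem_coe, hV, Finset.mem_union, Finset.mem_image]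
      left
      exact ⟨x.1, hx.1.1, rfl⟩
  have key : ∀ c : ℕ, 1 ≤ c → (tup H k).image (fun m => c * m.prod) ⊆ V →
      (eqp H k k).card = ∑ N ∈ V, ((tup H k).filter (fun m => c * m.prod = N)).card ^ 2 := by
    intro c hc hcV
    rw [Finset.card_eq_sum_card_fiberwise (f := fun x => c * x.1.prod) (t := V)]
    · refine Finset.sum_congr rfl fun N _ => ?_
      rw [sq, ← Finset.card_product]
      congr 1
      ext ⟨x, y⟩
      simp only [eqp, Finset.mem_filter, Finset.mem_product]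
      constructor
      · rintro ⟨⟨⟨h1, h2⟩, h3⟩, h4⟩
        exact ⟨⟨h1, h4⟩, ⟨h2, h3 ▸ h4⟩⟩
      · rintro ⟨⟨h1, h2⟩, ⟨h3, h4⟩⟩
        exact ⟨⟨⟨h1, h3⟩, Nat.eq_of_mul_eq_mul_left hc (h2.trans h4.symm)⟩, h2⟩
    · intro x hx
      rw [Finset.mem_coe, eqp, Finset.mem_filter, Finset.mem_product] at hx
      exact hcV (Finset.mem_image.2 ⟨x.1, hx.1.1, rfl⟩)
  have kb := key b hb Finset.subset_union_left
  have ka := key a ha Finset.subset_union_right
  have h2 : 2 * P.card ≤ (eqp H k k).card + (eqp H k k).card := by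
    conv_rhs => rw [kb]
    rw [← kb]
    conv_rhs => arg 1; rw [kb]
    rw [ka, c1, Finset.mul_sum, ← Finset.sum_add_distrib]
    refine Finset.sum_le_sum fun N _ => ?_
    set u := ((tup H k).filter (fun m => b * m.prod = N)).card
    set v := ((tup H k).filter (fun m => a * m.prod = N)).card
    zify
    nlinarith [sq_nonneg ((u : ℤ) - v)]
  omega

end Pool.Agent.W_MP_0d5018_nt
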